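import Pool.Agent.Helper3.TF.All

/-!
Project TF (MP_b8862a_ag), density in all weights: the final statement.
-/

open Finset

namespace TF

/-- the reversal of the coordinates -/
def rv {m N : ℕ} : (Fin (m + 1) → Fin (N + 1)) ≃ (Fin (m + 1) → Fin (N + 1)) where
  toFun h := fun j => h (Fin.rev j)
  invFun h := fun j => h (Fin.rev j)
  left_inv h := by
    funext j
    simp only [Fin.rev_rev]
  right_inv h := by
    funext j
    simp only [Fin.rev_rev]

theorem card_rv {m N : ℕ} (P : (Fin (m + 1) → Fin (N + 1)) → Prop) :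
    Nat.card {h : Fin (m + 1) → Fin (N + 1) // P (rv h)} = Nat.card {h : Fin (m + 1) → Fin (N + 1) // P h} :=
  Nat.card_congr (rv.subtypeEquiv fun _ => Iff.rfl)

/-- The numerical condition on the numbers `r p`, `0 ≤ p ≤ w`. -/
def Num (C w : ℕ) (r : ℤ → ℕ) : Prop := Nm C (dm w r) (tr w r)

theorem num_even {C m : ℕ} (h : Fin (m + 1) → ℕ) :
    Num C (2 * m) (hod (2 * m) h) ↔ Nm C (dimn (fun j => h (Fin.rev j))) (tr2 (fun j => h (Fin.rev j))) := by
  unfold Num
  rw [dm_even, tr_even]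

theorem num_odd {C m : ℕ} (h : Fin (m + 1) → ℕ) :
    Num C (2 * m + 1) (hod (2 * m + 1) h) ↔ Nm C (dimo (fun j => h (Fin.rev j))) (tro (fun j => h (Fin.rev j))) := by
  unfold Num
  rw [dm_odd, tr_odd]

theorem density_even (m : ℕ) (hm : 1 ≤ m) (C : ℕ) :
    Filter.Tendsto (fun N : ℕ => (Nat.card {h : Fin (m + 1) → Fin (N + 1) //
      NI.Indec ((2 * m : ℕ) : ℤ) (hod (2 * m) (fun j => (h j : ℕ))) ∧
        Num C (2 * m) (hod (2 * m) (fun j => (h j : ℕ)))} : ℝ) / ((N : ℝ) + 1) ^ (m + 1)) Filter.atTop (nhds 1) := by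
  refine (density m hm C).congr fun N => ?_
  congr 2
  rw [← card_rv]
  refine Nat.card_congr (Equiv.subtypeEquivRight fun h => ?_)
  rw [num_even, hod_even]
  unfold Good Nm
  push_cast
  exact Iff.rfl

theorem num_zero (m : ℕ) (C : ℕ) :
    Filter.Tendsto (fun N : ℕ => (Nat.card {h : Fin (m + 1 + 1) → Fin (N + 1) //
      ¬ Num C (2 * (m + 1) + 1) (hod (2 * (m + 1) + 1) (fun j => (h j : ℕ)))} : ℝ) / ((N : ℝ) + 1) ^ (m + 1 + 1))
      Filter.atTop (nhds 0) := by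
  classical
  refine tendsto_zero (fun N => by positivity) (B := 50) (by norm_num)
    (fun G => (21 + C * G ^ 4 + 50 * (2 * m + 5) : ℝ)) fun G hG N => ?_
  refine le_trans (le_of_eq ?_) (card_bado (C := C) (m := m) (N := N) hG)
  rw [← Fintype.card_subtype, ← Nat.card_eq_fintype_card, ← card_rv]
  congr 1
  refine Nat.card_congr (Equiv.subtypeEquivRight fun h => ?_)
  have e : ∀ j, rv h (Fin.rev j) = h j := fun j => by
    show h (Fin.rev (Fin.rev j)) = h j
    rw [Fin.rev_rev]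
  rw [num_odd]
  simp only [e]

/-- many vectors with `h 1 < h 0` -/
theorem card_lt {m N : ℕ} [DecidablePred fun h : Fin (m + 1 + 1) → Fin (N + 1) => h 1 < h 0] :
    (N + 1) ^ (m + 2) ≤ 2 * (univ.filter fun h : Fin (m + 1 + 1) → Fin (N + 1) => h 1 < h 0).card +
      (N + 1) ^ (m + 1) := by
  classical
  have h1 : (univ.filter fun h : Fin (m + 1 + 1) → Fin (N + 1) => h 0 < h 1).card =
      (univ.filter fun h : Fin (m + 1 + 1) → Fin (N + 1) => h 1 < h 0).card := by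
    refine card_nbij' (fun h => h ∘ Equiv.swap 0 1) (fun h => h ∘ Equiv.swap 0 1) ?_ ?_ ?_ ?_
    · intro h hh
      simpa using hh
    · intro h hh
      simpa using hh
    · intro h _
      funext j
      simp
    · intro h _
      funext j
      simp
  have h2 : (univ.filter fun h : Fin (m + 1 + 1) → Fin (N + 1) => h 0 = h 1).card ≤ (N + 1) ^ (m + 1) * 1 := by
    refine card_fib 0 _ fun t => ?_
    rw [card_le_one]
    intro x hx y hy
    rw [mem_filter] at hx hy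
    have e1 := hx.2
    have e2 := hy.2
    have h3 : (1 : Fin (m + 1 + 1)) = (0 : Fin (m + 1)).succ := rfl
    rw [h3, ins_zero, ins_succ] at e1 e2
    rw [e1, e2]
  have h3 : (univ : Finset (Fin (m + 1 + 1) → Fin (N + 1))) ⊆ (univ.filter fun h => h 0 < h 1) ∪
      ((univ.filter fun h => h 1 < h 0) ∪ univ.filter fun h => h 0 = h 1) := by
    intro h _
    simp only [mem_union, mem_filter, mem_univ, true_and]
    rcases lt_trichotomy (h 0) (h 1) with h4 | h4 | h4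
    · exact Or.inl h4
    · exact Or.inr (Or.inr h4)
    · exact Or.inr (Or.inl h4)
  have h4 := (card_le_card h3).trans ((card_union_le _ _).trans (Nat.add_le_add_left (card_union_le _ _) _))
  rw [card_univ, Fintype.card_fun, Fintype.card_fin, Fintype.card_fin, h1] at h4
  have h5 : (N + 1) ^ (m + 1 + 1) = (N + 1) ^ (m + 2) := rfl
  omega

/-- the indecomposable vectors in odd weight have positive density -/
theorem card_indec {m N : ℕ} :
    ((N : ℝ) + 1) ^ (m + 2) ≤ 2 * (Nat.card {h : Fin (m + 1 + 1) → Fin (N + 1) //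
      NI.Indec ((2 * (m + 1) + 1 : ℕ) : ℤ) (hod (2 * (m + 1) + 1) (fun j => (h j : ℕ)))} : ℝ) +
      (1 + 2 * ((2 * m + 4) * (2 ^ (m + 2) * (2 * m + 5) ^ (m + 2)))) *
        (((N : ℝ) + 1) ^ (m + 1) * √((N : ℝ) + 1)) := by
  classical
  obtain ⟨w, hw⟩ : ∃ w : ℕ, w = 2 * (m + 1) + 1 := ⟨_, rfl⟩
  obtain ⟨D, hD⟩ : ∃ D : ℕ, D = (2 * m + 5) * (N + 1) := ⟨_, rfl⟩
  obtain ⟨F, hF⟩ : ∃ F : ℕ → Finset (Fin (m + 1 + 1) → Fin (N + 1)), F = fun a =>
      univ.filter fun h : Fin (m + 1 + 1) → Fin (N + 1) => ((h 0 : Fin (N + 1)) : ℕ) ≠ 0 ∧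
        ∃ (u : Fin (a / 2 + 1) → ℕ) (v : Fin ((w - a) / 2 + 1) → ℕ), Cv w a (w - a) (fun x => (h x : ℕ)) u v :=
    ⟨_, rfl⟩
  obtain ⟨I, hI⟩ : ∃ I : Finset (Fin (m + 1 + 1) → Fin (N + 1)), I =
      univ.filter fun h : Fin (m + 1 + 1) → Fin (N + 1) => NI.Indec (w : ℤ) (hod w (fun j => (h j : ℕ))) := ⟨_, rfl⟩
  have hsub : (univ.filter fun h : Fin (m + 1 + 1) → Fin (N + 1) => h 1 < h 0) ⊆
      I ∪ (Icc 2 (w - 2)).biUnion F := by
    intro h hh
    have h1 : h 1 < h 0 := (mem_filter.1 hh).2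
    have h1' : ((h 1 : Fin (N + 1)) : ℕ) < ((h 0 : Fin (N + 1)) : ℕ) := h1
    simp only [mem_union, mem_biUnion, hI, hF, mem_filter, mem_univ, true_and]
    by_cases h2 : NI.Indec (w : ℤ) (hod w (fun j => (h j : ℕ)))
    · exact Or.inl h2
    · refine Or.inr ?_
      rw [hw] at h2
      obtain ⟨a, b, ha, hb, hab, u, v, huv⟩ := dec_odd (h := fun j => (h j : ℕ)) h1' h2
      rw [← hw] at hab huv
      obtain rfl : b = w - a := by omega
      refine ⟨a, ?_, by omega, u, v, huv⟩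
      rw [mem_Icc]
      omega
  have c1 : ((Icc 2 (w - 2)).biUnion F).card ≤ (2 * m + 4) * (2 ^ (m + 2) * (Nat.sqrt D * D ^ (m + 1))) := by
    have h1 := card_biUnion_le_card_mul (Icc 2 (w - 2)) F (2 ^ (m + 2) * (Nat.sqrt D * D ^ (m + 1))) ?_
    · refine h1.trans (Nat.mul_le_mul_right _ ?_)
      rw [Nat.card_Icc]
      omega
    · intro a ha
      rw [mem_Icc] at ha
      refine card_cv (w := w) (a := a) (b := w - a) (i := a / 2) (j := (w - a) / 2) hw (by omega) (by omega) (by omega)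
        (by omega) (by omega) ?_ _ fun h hh => ?_
      · rw [hD]
        have : 2 * (m + 1) + 3 = 2 * m + 5 := by ring
        rw [this]
      · rw [hF] at hh
        exact (mem_filter.1 hh).2
  have h2 := card_lt (m := m) (N := N)
  have h3 := (card_le_card hsub).trans (card_union_le _ _)
  have h4 : (Nat.card {h : Fin (m + 1 + 1) → Fin (N + 1) //
      NI.Indec ((2 * (m + 1) + 1 : ℕ) : ℤ) (hod (2 * (m + 1) + 1) (fun j => (h j : ℕ)))}) = I.card := by
    rw [hI, Nat.card_eq_fintype_card, Fintype.card_subtype, hw]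
  have h5 : (N + 1) ^ (m + 2) ≤ 2 * I.card + ((N + 1) ^ (m + 1) +
      2 * ((2 * m + 4) * (2 ^ (m + 2) * (Nat.sqrt D * D ^ (m + 1))))) := by omega
  have h6 : (((N + 1) ^ (m + 2) : ℕ) : ℝ) ≤ ((2 * I.card + ((N + 1) ^ (m + 1) +
      2 * ((2 * m + 4) * (2 ^ (m + 2) * (Nat.sqrt D * D ^ (m + 1))))) : ℕ) : ℝ) := by exact_mod_cast h5
  push_cast at h6
  rw [h4]
  obtain ⟨M, hM⟩ : ∃ M : ℝ, M = (N : ℝ) + 1 := ⟨_, rfl⟩
  obtain ⟨s, hs⟩ : ∃ s : ℝ, s = √((N : ℝ) + 1) := ⟨_, rfl⟩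
  have hN0 : (0 : ℝ) ≤ N := Nat.cast_nonneg N
  have hM1 : 1 ≤ M := by linarith
  have hs1 : 1 ≤ s := by
    rw [hs, Real.one_le_sqrt]
    linarith
  have qD : (Nat.sqrt D : ℝ) ≤ (2 * m + 5) * s := by
    have h2 := nsqrt_le (c := 2 * m + 5) (N := N) (by omega)
    rw [hD, hs]
    push_cast at h2
    exact h2
  have hDM : (D : ℝ) = (2 * m + 5) * M := by
    rw [hD, hM]
    push_cast
    ring
  rw [hDM, ← hM] at h6
  rw [← hs, ← hM]
  have e1 : M ^ (m + 1) * 1 ≤ M ^ (m + 1) * s := by gcongr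
  have e2 : (2 * (m : ℝ) + 4) * (2 ^ (m + 2) * ((Nat.sqrt D : ℝ) * ((2 * m + 5) * M) ^ (m + 1))) ≤
      (2 * (m : ℝ) + 4) * (2 ^ (m + 2) * (((2 * m + 5) * s) * ((2 * m + 5) * M) ^ (m + 1))) := by
    gcongr
  have e3 : (2 * (m : ℝ) + 4) * (2 ^ (m + 2) * (((2 * m + 5) * s) * ((2 * m + 5) * M) ^ (m + 1))) =
      ((2 * m + 4) * (2 ^ (m + 2) * (2 * m + 5) ^ (m + 2))) * (M ^ (m + 1) * s) := by
    rw [mul_pow, pow_succ (2 * (m : ℝ) + 5) (m + 1)]
    ring
  rw [e3] at e2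
  linarith

/-- For every weight `w ≥ 2`, a hundred per cent of the indecomposable vectors of Hodge numbers satisfy the numerical
condition; for even `w`, a hundred per cent of all the vectors are indecomposable. -/
theorem density_all (m w : ℕ) (hm : 1 ≤ m) (hw : w = 2 * m ∨ w = 2 * m + 1) (C : ℕ) :
    Filter.Tendsto (fun N : ℕ => (Nat.card {h : Fin (m + 1) → Fin (N + 1) //
        NI.Indec (w : ℤ) (hod w (fun j => (h j : ℕ))) ∧ Num C w (hod w (fun j => (h j : ℕ)))} : ℝ) /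
      (Nat.card {h : Fin (m + 1) → Fin (N + 1) // NI.Indec (w : ℤ) (hod w (fun j => (h j : ℕ)))} : ℝ))
      Filter.atTop (nhds 1) ∧
    (w = 2 * m → Filter.Tendsto (fun N : ℕ => (Nat.card {h : Fin (m + 1) → Fin (N + 1) //
        NI.Indec (w : ℤ) (hod w (fun j => (h j : ℕ)))} : ℝ) / ((N : ℝ) + 1) ^ (m + 1)) Filter.atTop (nhds 1)) := by
  classical
  have hle1 : ∀ N : ℕ, (Nat.card {h : Fin (m + 1) → Fin (N + 1) //
        NI.Indec (w : ℤ) (hod w (fun j => (h j : ℕ))) ∧ Num C w (hod w (fun j => (h j : ℕ)))} : ℝ) ≤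
      (Nat.card {h : Fin (m + 1) → Fin (N + 1) // NI.Indec (w : ℤ) (hod w (fun j => (h j : ℕ)))} : ℝ) := by
    intro N
    exact_mod_cast Nat.card_le_card_of_injective
      (fun x : {h : Fin (m + 1) → Fin (N + 1) //
        NI.Indec (w : ℤ) (hod w (fun j => (h j : ℕ))) ∧ Num C w (hod w (fun j => (h j : ℕ)))} =>
        (⟨x.1, x.2.1⟩ : {h : Fin (m + 1) → Fin (N + 1) // NI.Indec (w : ℤ) (hod w (fun j => (h j : ℕ)))}))
      fun x y hxy => Subtype.ext (congrArg (fun z => z.1) hxy)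
  have hle2 : ∀ N : ℕ, (Nat.card {h : Fin (m + 1) → Fin (N + 1) //
        NI.Indec (w : ℤ) (hod w (fun j => (h j : ℕ)))} : ℝ) ≤ ((N : ℝ) + 1) ^ (m + 1) := by
    intro N
    have h1 := Nat.card_le_card_of_injective
      (fun x : {h : Fin (m + 1) → Fin (N + 1) // NI.Indec (w : ℤ) (hod w (fun j => (h j : ℕ)))} => x.1)
      Subtype.val_injective
    rw [Nat.card_eq_fintype_card (α := Fin (m + 1) → Fin (N + 1)), Fintype.card_fun, Fintype.card_fin,
      Fintype.card_fin] at h1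
    exact_mod_cast h1
  rcases hw with rfl | rfl
  · have h1 := density_even m hm C
    have h2 : Filter.Tendsto (fun N : ℕ => (Nat.card {h : Fin (m + 1) → Fin (N + 1) //
        NI.Indec ((2 * m : ℕ) : ℤ) (hod (2 * m) (fun j => (h j : ℕ)))} : ℝ) / ((N : ℝ) + 1) ^ (m + 1))
        Filter.atTop (nhds 1) := by
      refine tendsto_of_tendsto_of_tendsto_of_le_of_le h1 tendsto_const_nhds (fun N => ?_) fun N => ?_
      · exact div_le_div_of_nonneg_right (hle1 N) (by positivity)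
      · exact div_le_one_of_le₀ (hle2 N) (by positivity)
    refine ⟨?_, fun _ => h2⟩
    have h3 := h1.div h2 one_ne_zero
    rw [div_one] at h3
    refine h3.congr fun N => ?_
    have h4 : ((N : ℝ) + 1) ^ (m + 1) ≠ 0 := by positivity
    exact div_div_div_cancel_right₀ h4 _ _
  · refine ⟨?_, fun h => by omega⟩
    obtain ⟨m, rfl⟩ := Nat.exists_eq_add_of_le' hm
    have h1 := num_zero m C
    obtain ⟨A, hA⟩ : ∃ A : ℝ, A = (1 + 2 * ((2 * m + 4) * (2 ^ (m + 2) * (2 * m + 5) ^ (m + 2))) : ℝ) := ⟨_, rfl⟩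
    have hlim : Filter.Tendsto (fun N : ℕ => A / √((N : ℝ) + 1)) Filter.atTop (nhds 0) := by
      refine Filter.Tendsto.div_atTop tendsto_const_nhds ?_
      exact Real.tendsto_sqrt_atTop.comp (Filter.tendsto_atTop_add_const_right _ _ tendsto_natCast_atTop_atTop)
    have hev : ∀ᶠ N : ℕ in Filter.atTop, A / √((N : ℝ) + 1) < 1 / 2 :=
      hlim.eventually (gt_mem_nhds (by norm_num))
    have hlow : ∀ᶠ N : ℕ in Filter.atTop, ((N : ℝ) + 1) ^ (m + 1 + 1) ≤
        4 * (Nat.card {h : Fin (m + 1 + 1) → Fin (N + 1) //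
          NI.Indec ((2 * (m + 1) + 1 : ℕ) : ℤ) (hod (2 * (m + 1) + 1) (fun j => (h j : ℕ)))} : ℝ) := by
      filter_upwards [hev] with N hN
      have h2 := card_indec (m := m) (N := N)
      rw [← hA] at h2
      obtain ⟨M, hM⟩ : ∃ M : ℝ, M = (N : ℝ) + 1 := ⟨_, rfl⟩
      have hM0 : 0 < M := by
        rw [hM]
        positivity
      rw [← hM] at h2 hN ⊢
      have h8 : 0 < √M := Real.sqrt_pos.2 hM0
      have h9 : √M * √M = M := Real.mul_self_sqrt hM0.le
      rw [div_lt_iff₀ h8] at hN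
      have h10 : A * (M ^ (m + 1) * √M) ≤ 1 / 2 * M ^ (m + 2) := by
        have h11 : 1 / 2 * M ^ (m + 2) = (1 / 2 * √M) * (M ^ (m + 1) * √M) := by
          calc 1 / 2 * M ^ (m + 2) = 1 / 2 * (M ^ (m + 1) * (√M * √M)) := by
                rw [h9]
                ring
            _ = (1 / 2 * √M) * (M ^ (m + 1) * √M) := by ring
        rw [h11]
        exact mul_le_mul_of_nonneg_right hN.le (by positivity)
      have h12 : M ^ (m + 1 + 1) = M ^ (m + 2) := rfl
      rw [h12]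
      linarith
    have h4 : Filter.Tendsto (fun N : ℕ => 1 - 4 * ((Nat.card {h : Fin (m + 1 + 1) → Fin (N + 1) //
      ¬ Num C (2 * (m + 1) + 1) (hod (2 * (m + 1) + 1) (fun j => (h j : ℕ)))} : ℝ) / ((N : ℝ) + 1) ^ (m + 1 + 1)))
      Filter.atTop (nhds 1) := by
      have h5 := (h1.const_mul 4).const_sub 1
      rwa [mul_zero, sub_zero] at h5
    refine tendsto_of_tendsto_of_tendsto_of_le_of_le' h4 tendsto_const_nhds ?_ ?_
    · filter_upwards [hlow] with N hN
      obtain ⟨M, hM⟩ : ∃ M : ℝ, M = ((N : ℝ) + 1) ^ (m + 1 + 1) := ⟨_, rfl⟩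
      have hM0 : 0 < M := by
        rw [hM]
        positivity
      rw [← hM] at hN ⊢
      obtain ⟨I, hI⟩ : ∃ I : ℕ, I = Nat.card {h : Fin (m + 1 + 1) → Fin (N + 1) //
          NI.Indec ((2 * (m + 1) + 1 : ℕ) : ℤ) (hod (2 * (m + 1) + 1) (fun j => (h j : ℕ)))} := ⟨_, rfl⟩
      obtain ⟨B, hB⟩ : ∃ B : ℕ, B = Nat.card {h : Fin (m + 1 + 1) → Fin (N + 1) //
          ¬ Num C (2 * (m + 1) + 1) (hod (2 * (m + 1) + 1) (fun j => (h j : ℕ)))} := ⟨_, rfl⟩
      obtain ⟨J, hJ⟩ : ∃ J : ℕ, J = Nat.card {h : Fin (m + 1 + 1) → Fin (N + 1) //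
          NI.Indec ((2 * (m + 1) + 1 : ℕ) : ℤ) (hod (2 * (m + 1) + 1) (fun j => (h j : ℕ))) ∧
          Num C (2 * (m + 1) + 1) (hod (2 * (m + 1) + 1) (fun j => (h j : ℕ)))} := ⟨_, rfl⟩
      have h5 : I ≤ J + B := by
        rw [hI, hJ, hB, Nat.card_eq_fintype_card, Nat.card_eq_fintype_card, Nat.card_eq_fintype_card,
          Fintype.card_subtype, Fintype.card_subtype, Fintype.card_subtype]
        refine le_trans (card_le_card ?_) (card_union_le _ _)
        intro h hh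
        rw [mem_filter] at hh
        rw [mem_union, mem_filter, mem_filter]
        by_cases h6 : Num C (2 * (m + 1) + 1) (hod (2 * (m + 1) + 1) (fun j => (h j : ℕ)))
        · exact Or.inl ⟨hh.1, hh.2, h6⟩
        · exact Or.inr ⟨hh.1, h6⟩
      rw [← hI, ← hJ, ← hB]
      rw [← hI] at hN
      have h5' : (I : ℝ) ≤ J + B := by exact_mod_cast h5
      have hI0 : (0 : ℝ) < I := by linarith
      rw [le_div_iff₀ hI0]
      have h6 : (B : ℝ) / M * (4 * I) ≥ B := by
        rw [ge_iff_le, div_mul_eq_mul_div, le_div_iff₀ hM0]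
        exact mul_le_mul_of_nonneg_left hN (by positivity)
      nlinarith
    · exact Filter.Eventually.of_forall fun N => div_le_one_of_le₀ (hle1 N) (by positivity)

end TF
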