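import Pool.Agent.Helper3.TF.OddD

/-!
Project TF (MP_b8862a_ag), density in all weights.
-/

open Finset

namespace TF

/-- The numerical condition for the dimension `n` and the trace `T`. -/
def Nm (C n T : ℕ) : Prop := C * Nat.gcd n T ^ 4 ≤ n ∧ ¬IsSquare (n + 1) ∧ ¬IsSquare (8 * n + 1)

/-! ### odd weight, in terms of the distances from the middle -/

theorem card_sqo {m N c : ℕ} (hc : 0 < c) :
    (univ.filter fun h : Fin (m + 1) → Fin (N + 1) => IsSquare (c * dimo (fun j => (h j : ℕ)) + 1)).card ≤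
      (N + 1) ^ m * (Nat.sqrt (c * 2 * N) + 1) := by
  classical
  refine card_fib 0 _ fun t => ?_
  have h1 := card_sq (N := N) (c := c * 2) (by omega) (c * (2 * ∑ j : Fin m, (t j : ℕ)) + 1)
  refine le_trans (le_of_eq ?_) h1
  congr 1
  ext x
  simp only [mem_filter, mem_univ, true_and, dimo, ins_zero, ins_succ, mul_add, add_assoc, mul_assoc]

theorem card_smallo {m N : ℕ} (A : ℕ) :
    (univ.filter fun h : Fin (m + 1) → Fin (N + 1) => dimo (fun j => (h j : ℕ)) < A).card ≤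
      (N + 1) ^ m * A := by
  classical
  refine card_fib 0 _ fun t => ?_
  have h1 : (univ.filter fun x : Fin (N + 1) =>
      dimo (fun j => ((Fin.insertNth (α := fun _ => Fin (N + 1)) (0 : Fin (m + 1)) x t) j : ℕ)) < A).card ≤
      (range A).card := by
    refine card_le_card_of_injOn (fun x => (x : ℕ)) ?_ fun x _ y _ hxy => Fin.ext hxy
    intro x hx
    rw [mem_coe, mem_filter] at hx
    have h2 := hx.2
    unfold dimo at h2
    simp only [ins_zero] at h2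
    rw [mem_coe, mem_range]
    show (x : ℕ) < A
    omega
  rw [card_range] at h1
  exact h1

theorem card_ddo {m N d : ℕ} (hd : 0 < d) :
    (univ.filter fun h : Fin (m + 1 + 1) → Fin (N + 1) =>
      d ∣ dimo (fun j => (h j : ℕ)) ∧ d ∣ tro (fun j => (h j : ℕ))).card ≤
      (N + 1) ^ m * (16 * N / d + 1) * (2 * N / d + 1) := by
  classical
  have h0 : (univ.filter fun t : Fin (m + 1) → Fin (N + 1) =>
      d ∣ 8 * ∑ j : Fin (m + 1), (((j : ℕ) + 1) * ((j : ℕ) + 2)) * (t j : ℕ)).card ≤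
        (N + 1) ^ m * (16 * N / d + 1) := by
    refine card_fib 0 _ fun t => ?_
    have h1 := card_dvd (N := N) (c := 16) (by norm_num) hd
      (8 * ∑ j : Fin m, (((j : ℕ) + 1 + 1) * ((j : ℕ) + 1 + 2)) * (t j : ℕ))
    refine le_trans (le_of_eq ?_) h1
    congr 1
    ext x
    simp only [mem_filter, mem_univ, true_and, Fin.sum_univ_succ, ins_zero, ins_succ, Fin.val_zero,
      Fin.val_succ, zero_add, one_mul]
    rw [mul_add, ← mul_assoc, show 8 * 2 = 16 from rfl]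
  refine (card_fib2 (K := 2 * N / d + 1) 0 _ (fun t : Fin (m + 1) → Fin (N + 1) =>
      d ∣ 8 * ∑ j : Fin (m + 1), (((j : ℕ) + 1) * ((j : ℕ) + 2)) * (t j : ℕ)) ?_ fun t => ?_).trans
      (Nat.mul_le_mul_right _ h0)
  · intro x t hx
    have h1 := hx.2
    unfold tro at h1
    rw [Nat.dvd_add_right hx.1] at h1
    simp only [ins_succ] at h1
    exact h1
  · have h1 := card_dvd (N := N) (c := 2) (by norm_num) hd (2 * ∑ j : Fin (m + 1), (t j : ℕ))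
    refine le_trans (card_le_card ?_) h1
    intro x hx
    rw [mem_filter] at hx ⊢
    refine ⟨mem_univ _, ?_⟩
    have h2 := hx.2.1
    unfold dimo at h2
    simp only [ins_zero, ins_succ] at h2
    exact h2

theorem le_dimo {m : ℕ} (h : Fin (m + 1) → ℕ) (j : Fin (m + 1)) : h j ≤ dimo h := by
  unfold dimo
  refine Fin.cases ?_ (fun i => ?_) j
  · omega
  · have h1 : h i.succ ≤ ∑ j : Fin m, h j.succ :=
      single_le_sum (f := fun j : Fin m => h j.succ) (fun _ _ => Nat.zero_le _) (mem_univ i)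
    omega

theorem dimo_le {m N : ℕ} (h : Fin (m + 1) → Fin (N + 1)) : dimo (fun j => (h j : ℕ)) ≤ (2 * m + 2) * N := by
  unfold dimo
  have h1 : ∑ j : Fin m, ((h j.succ : Fin (N + 1)) : ℕ) ≤ ∑ _j : Fin m, N :=
    sum_le_sum fun j _ => Nat.le_of_lt_succ (h j.succ).2
  rw [sum_const, card_univ, Fintype.card_fin, smul_eq_mul] at h1
  have h2 : ((h 0 : Fin (N + 1)) : ℕ) ≤ N := Nat.le_of_lt_succ (h 0).2
  nlinarith

theorem not_nm {C m G N : ℕ} {h : Fin (m + 1 + 1) → Fin (N + 1)}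
    (hb : ¬ Nm C (dimo (fun j => (h j : ℕ))) (tro (fun j => (h j : ℕ)))) :
    ((h (Fin.last (m + 1)) : Fin (N + 1)) : ℕ) = 0 ∨
    IsSquare (1 * dimo (fun j => (h j : ℕ)) + 1) ∨ IsSquare (8 * dimo (fun j => (h j : ℕ)) + 1) ∨
    dimo (fun j => (h j : ℕ)) < C * G ^ 4 ∨
    ∃ d ∈ Ioc G ((2 * m + 5) * (N + 1)), d ∣ dimo (fun j => (h j : ℕ)) ∧ d ∣ tro (fun j => (h j : ℕ)) := by
  by_cases h0 : ((h (Fin.last (m + 1)) : Fin (N + 1)) : ℕ) = 0
  · exact Or.inl h0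
  refine Or.inr ?_
  by_cases h1 : IsSquare (dimo (fun j => (h j : ℕ)) + 1)
  · rw [one_mul]
    exact Or.inl h1
  by_cases h2 : IsSquare (8 * dimo (fun j => (h j : ℕ)) + 1)
  · exact Or.inr (Or.inl h2)
  have h3 : ¬ (C * Nat.gcd (dimo (fun j => (h j : ℕ))) (tro (fun j => (h j : ℕ))) ^ 4 ≤
      dimo (fun j => (h j : ℕ))) := fun h3 => hb ⟨h3, h1, h2⟩
  push Not at h3
  have h4 : ((h (Fin.last (m + 1)) : Fin (N + 1)) : ℕ) ≤ dimo (fun j => (h j : ℕ)) :=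
    le_dimo (fun j => (h j : ℕ)) (Fin.last (m + 1))
  have h5 := dimo_le h
  have h6 : (2 * (m + 1) + 2) * N ≤ (2 * m + 5) * (N + 1) := by nlinarith
  by_cases h7 : Nat.gcd (dimo (fun j => (h j : ℕ))) (tro (fun j => (h j : ℕ))) ≤ G
  · refine Or.inr (Or.inr (Or.inl (lt_of_lt_of_le h3 ?_)))
    exact Nat.mul_le_mul_left _ (Nat.pow_le_pow_left h7 4)
  · refine Or.inr (Or.inr (Or.inr ⟨_, ?_, Nat.gcd_dvd_left _ _, Nat.gcd_dvd_right _ _⟩))
    rw [mem_Ioc]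
    refine ⟨by omega, le_trans (Nat.gcd_le_left _ (by omega)) (by omega)⟩

theorem sum_ddo {G D N : ℕ} (hG : 0 < G) :
    ∑ d ∈ Ioc G D, (((16 * N / d + 1) * (2 * N / d + 1) : ℕ) : ℝ) ≤ 50 * (N : ℝ) ^ 2 / G + 50 * D := by
  rcases Nat.lt_or_ge D G with h | h
  · rw [Ioc_eq_empty (by omega), sum_empty]
    positivity
  have h1 : ∀ d ∈ Ioc G D, (((16 * N / d + 1) * (2 * N / d + 1) : ℕ) : ℝ) ≤
      50 * (N : ℝ) ^ 2 * (((d : ℝ) ^ 2)⁻¹) + 50 := by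
    intro d hd
    have hd1 : 0 < d := by
      rw [mem_Ioc] at hd
      omega
    have hd0 : (0 : ℝ) < d := by exact_mod_cast hd1
    have h2 : ((16 * N / d : ℕ) : ℝ) ≤ 16 * ((N : ℝ) / d) := by
      refine Nat.cast_div_le.trans (le_of_eq ?_)
      push_cast
      ring
    have h3 : ((2 * N / d : ℕ) : ℝ) ≤ 2 * ((N : ℝ) / d) := by
      refine Nat.cast_div_le.trans (le_of_eq ?_)
      push_cast
      ring
    have h4 : (0 : ℝ) ≤ (N : ℝ) / d := by positivity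
    have h5 : ((N : ℝ) / d) ^ 2 = (N : ℝ) ^ 2 * (((d : ℝ) ^ 2)⁻¹) := by
      rw [div_pow, div_eq_mul_inv]
    push_cast
    calc (((16 * N / d : ℕ) : ℝ) + 1) * (((2 * N / d : ℕ) : ℝ) + 1) ≤
          (16 * ((N : ℝ) / d) + 1) * (2 * ((N : ℝ) / d) + 1) := by
          refine mul_le_mul (by linarith) (by linarith) (by positivity) (by positivity)
      _ ≤ 50 * ((N : ℝ) / d) ^ 2 + 50 := by nlinarith [sq_nonneg ((N : ℝ) / d - 1)]
      _ = 50 * (N : ℝ) ^ 2 * (((d : ℝ) ^ 2)⁻¹) + 50 := by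
        rw [h5]
        ring
  refine (sum_le_sum h1).trans ?_
  rw [sum_add_distrib, ← mul_sum, sum_const, Nat.card_Ioc, nsmul_eq_mul]
  have h2 : ∑ i ∈ Ioc G D, ((i : ℝ) ^ 2)⁻¹ ≤ (G : ℝ)⁻¹ - (D : ℝ)⁻¹ := sum_Ioc_inv_sq_le_sub (by omega) h
  have h3 : ∑ i ∈ Ioc G D, ((i : ℝ) ^ 2)⁻¹ ≤ (G : ℝ)⁻¹ := h2.trans (by
    have : (0 : ℝ) ≤ (D : ℝ)⁻¹ := by positivity
    linarith)
  have h4 : 50 * (N : ℝ) ^ 2 * ∑ i ∈ Ioc G D, ((i : ℝ) ^ 2)⁻¹ ≤ 50 * (N : ℝ) ^ 2 / G := by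
    rw [div_eq_mul_inv]
    exact mul_le_mul_of_nonneg_left h3 (by positivity)
  have h5 : ((D - G : ℕ) : ℝ) ≤ D := by exact_mod_cast Nat.sub_le D G
  linarith

theorem card_bado {C m G N : ℕ} (hG : 0 < G) [DecidablePred fun h : Fin (m + 1 + 1) → Fin (N + 1) =>
      ¬ Nm C (dimo (fun j => (h j : ℕ))) (tro (fun j => (h j : ℕ)))] :
    ((univ.filter fun h : Fin (m + 1 + 1) → Fin (N + 1) =>
        ¬ Nm C (dimo (fun j => (h j : ℕ))) (tro (fun j => (h j : ℕ)))).card : ℝ) ≤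
      (21 + C * G ^ 4 + 50 * (2 * m + 5) : ℝ) *
        (((N : ℝ) + 1) ^ (m + 1) * √((N : ℝ) + 1)) + 50 / G * ((N : ℝ) + 1) ^ (m + 2) := by
  classical
  obtain ⟨D, hD⟩ : ∃ D : ℕ, D = (2 * m + 5) * (N + 1) := ⟨_, rfl⟩
  obtain ⟨F1, hF1⟩ : ∃ F : Finset (Fin (m + 1 + 1) → Fin (N + 1)), F =
      univ.filter fun h : Fin (m + 1 + 1) → Fin (N + 1) => ((h (Fin.last (m + 1)) : Fin (N + 1)) : ℕ) = 0 := ⟨_, rfl⟩
  obtain ⟨F4, hF4⟩ : ∃ F : Finset (Fin (m + 1 + 1) → Fin (N + 1)), F =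
      univ.filter fun h : Fin (m + 1 + 1) → Fin (N + 1) => IsSquare (1 * dimo (fun j => (h j : ℕ)) + 1) := ⟨_, rfl⟩
  obtain ⟨F5, hF5⟩ : ∃ F : Finset (Fin (m + 1 + 1) → Fin (N + 1)), F =
      univ.filter fun h : Fin (m + 1 + 1) → Fin (N + 1) => IsSquare (8 * dimo (fun j => (h j : ℕ)) + 1) := ⟨_, rfl⟩
  obtain ⟨F6, hF6⟩ : ∃ F : Finset (Fin (m + 1 + 1) → Fin (N + 1)), F =
      univ.filter fun h : Fin (m + 1 + 1) → Fin (N + 1) => dimo (fun j => (h j : ℕ)) < C * G ^ 4 := ⟨_, rfl⟩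
  obtain ⟨F7, hF7⟩ : ∃ F : ℕ → Finset (Fin (m + 1 + 1) → Fin (N + 1)), F = fun d =>
      univ.filter fun h : Fin (m + 1 + 1) → Fin (N + 1) =>
        d ∣ dimo (fun j => (h j : ℕ)) ∧ d ∣ tro (fun j => (h j : ℕ)) := ⟨_, rfl⟩
  have hsub : (univ.filter fun h : Fin (m + 1 + 1) → Fin (N + 1) =>
      ¬ Nm C (dimo (fun j => (h j : ℕ))) (tro (fun j => (h j : ℕ)))) ⊆
      F1 ∪ (F4 ∪ (F5 ∪ (F6 ∪ (Ioc G D).biUnion F7))) := by
    intro h hh
    have h1 := not_nm (G := G) (mem_filter.1 hh).2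
    simp only [mem_union, mem_biUnion, hF1, hF4, hF5, hF6, hF7, mem_filter, mem_univ, true_and, hD]
    exact h1
  have c1 : F1.card ≤ (N + 1) ^ (m + 1) * 1 := by
    rw [hF1]
    exact card_last
  have c4 : F4.card ≤ (N + 1) ^ (m + 1) * (Nat.sqrt (1 * 2 * N) + 1) := by
    rw [hF4]
    exact card_sqo one_pos
  have c5 : F5.card ≤ (N + 1) ^ (m + 1) * (Nat.sqrt (8 * 2 * N) + 1) := by
    rw [hF5]
    exact card_sqo (by norm_num)
  have c6 : F6.card ≤ (N + 1) ^ (m + 1) * (C * G ^ 4) := by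
    rw [hF6]
    exact card_smallo _
  have c7 : ((Ioc G D).biUnion F7).card ≤ (N + 1) ^ m * ∑ d ∈ Ioc G D, ((16 * N / d + 1) * (2 * N / d + 1)) := by
    refine card_biUnion_le.trans ?_
    rw [mul_sum]
    refine sum_le_sum fun d hd => ?_
    rw [hF7, ← mul_assoc]
    exact card_ddo (by
      rw [mem_Ioc] at hd
      omega)
  have hall := (card_le_card hsub).trans ((card_union_le _ _).trans (Nat.add_le_add_left
    ((card_union_le _ _).trans (Nat.add_le_add_left ((card_union_le _ _).trans (Nat.add_le_add_left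
    (card_union_le _ _) _)) _)) _))
  obtain ⟨M, hM⟩ : ∃ M : ℝ, M = (N : ℝ) + 1 := ⟨_, rfl⟩
  obtain ⟨s, hs⟩ : ∃ s : ℝ, s = √((N : ℝ) + 1) := ⟨_, rfl⟩
  have hN0 : (0 : ℝ) ≤ N := Nat.cast_nonneg N
  have hM1 : 1 ≤ M := by linarith
  have hs1 : 1 ≤ s := by
    rw [hs, Real.one_le_sqrt]
    linarith
  have hP : 1 ≤ M ^ (m + 1) := one_le_pow₀ hM1
  have r1 : (F1.card : ℝ) ≤ 1 * (M ^ (m + 1) * s) := by
    have h1 : (F1.card : ℝ) ≤ (((N + 1) ^ (m + 1) * 1 : ℕ) : ℝ) := by exact_mod_cast c1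
    push_cast at h1
    rw [← hM] at h1
    nlinarith
  have q2 : (Nat.sqrt (1 * 2 * N) : ℝ) ≤ 2 * s := by
    have h1 : (Nat.sqrt (1 * 2 * N) : ℝ) ≤ (Nat.sqrt (2 * (N + 1)) : ℝ) := by
      exact_mod_cast Nat.sqrt_le_sqrt (by omega)
    have h2 := nsqrt_le (c := 2) (N := N) (by norm_num)
    rw [hs]
    push_cast at h2
    linarith
  have q16 : (Nat.sqrt (8 * 2 * N) : ℝ) ≤ 16 * s := by
    have h1 : (Nat.sqrt (8 * 2 * N) : ℝ) ≤ (Nat.sqrt (16 * (N + 1)) : ℝ) := by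
      exact_mod_cast Nat.sqrt_le_sqrt (by omega)
    have h2 := nsqrt_le (c := 16) (N := N) (by norm_num)
    rw [hs]
    push_cast at h2
    linarith
  have r4 : (F4.card : ℝ) ≤ 3 * (M ^ (m + 1) * s) := by
    have h1 : (F4.card : ℝ) ≤ (((N + 1) ^ (m + 1) * (Nat.sqrt (1 * 2 * N) + 1) : ℕ) : ℝ) := by exact_mod_cast c4
    rw [Nat.cast_mul, Nat.cast_add, Nat.cast_pow, Nat.cast_add, Nat.cast_one, ← hM] at h1
    have h2 : M ^ (m + 1) * ((Nat.sqrt (1 * 2 * N) : ℝ) + 1) ≤ M ^ (m + 1) * (3 * s) :=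
      mul_le_mul_of_nonneg_left (by linarith) (by linarith)
    linarith
  have r5 : (F5.card : ℝ) ≤ 17 * (M ^ (m + 1) * s) := by
    have h1 : (F5.card : ℝ) ≤ (((N + 1) ^ (m + 1) * (Nat.sqrt (8 * 2 * N) + 1) : ℕ) : ℝ) := by exact_mod_cast c5
    rw [Nat.cast_mul, Nat.cast_add, Nat.cast_pow, Nat.cast_add, Nat.cast_one, ← hM] at h1
    have h2 : M ^ (m + 1) * ((Nat.sqrt (8 * 2 * N) : ℝ) + 1) ≤ M ^ (m + 1) * (17 * s) :=
      mul_le_mul_of_nonneg_left (by linarith) (by linarith)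
    linarith
  have r6 : (F6.card : ℝ) ≤ (C * G ^ 4) * (M ^ (m + 1) * s) := by
    have h1 : (F6.card : ℝ) ≤ (((N + 1) ^ (m + 1) * (C * G ^ 4) : ℕ) : ℝ) := by exact_mod_cast c6
    push_cast at h1
    rw [← hM] at h1
    have h2 : (0 : ℝ) ≤ C * G ^ 4 := by positivity
    have h3 : M ^ (m + 1) * (C * G ^ 4 : ℝ) ≤ (C * G ^ 4) * (M ^ (m + 1) * s) := by
      have h4 : (C * G ^ 4 : ℝ) * (M ^ (m + 1) * 1) ≤ (C * G ^ 4) * (M ^ (m + 1) * s) := by
        refine mul_le_mul_of_nonneg_left (mul_le_mul_of_nonneg_left hs1 (by linarith)) h2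
      linarith
    linarith
  have r7 : ((((Ioc G D).biUnion F7).card : ℕ) : ℝ) ≤
      50 / G * M ^ (m + 2) + 50 * (2 * m + 5) * (M ^ (m + 1) * s) := by
    have h1 : ((((Ioc G D).biUnion F7).card : ℕ) : ℝ) ≤
        (((N + 1) ^ m * ∑ d ∈ Ioc G D, ((16 * N / d + 1) * (2 * N / d + 1)) : ℕ) : ℝ) := by
      exact_mod_cast c7
    have h2 := sum_ddo (D := D) (N := N) hG
    rw [Nat.cast_mul, Nat.cast_sum] at h1
    have h3 : ((((N + 1) ^ m : ℕ)) : ℝ) = M ^ m := by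
      rw [hM]
      push_cast
      rfl
    rw [h3] at h1
    have h4 : (D : ℝ) = (2 * m + 5) * M := by
      rw [hD, hM]
      push_cast
      ring
    rw [h4] at h2
    have hG0 : (0 : ℝ) < G := by exact_mod_cast hG
    have h5 : 50 * (N : ℝ) ^ 2 / G ≤ 50 * M ^ 2 / G := by
      have h6 : (N : ℝ) ^ 2 ≤ M ^ 2 := by
        rw [hM]
        gcongr
        linarith
      gcongr
    have h7 : M ^ m * (50 * M ^ 2 / G + 50 * ((2 * m + 5) * M)) =
        50 / G * M ^ (m + 2) + 50 * (2 * m + 5) * (M ^ (m + 1) * 1) := by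
      ring
    have h8 : 50 * (2 * m + 5 : ℝ) * (M ^ (m + 1) * 1) ≤ 50 * (2 * m + 5) * (M ^ (m + 1) * s) := by
      gcongr
    have h9 : M ^ m * ∑ d ∈ Ioc G D, (((16 * N / d + 1) * (2 * N / d + 1) : ℕ) : ℝ) ≤
        M ^ m * (50 * M ^ 2 / G + 50 * ((2 * m + 5) * M)) := by
      refine mul_le_mul_of_nonneg_left (by linarith) (by positivity)
    linarith
  have hall' : ((univ.filter fun h : Fin (m + 1 + 1) → Fin (N + 1) =>
      ¬ Nm C (dimo (fun j => (h j : ℕ))) (tro (fun j => (h j : ℕ)))).card : ℝ) ≤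
      (F1.card : ℝ) + (F4.card + (F5.card + (F6.card + ((Ioc G D).biUnion F7).card))) := by
    exact_mod_cast hall
  rw [← hs, ← hM]
  refine hall'.trans ?_
  have e1 : (21 + C * G ^ 4 + 50 * (2 * m + 5) : ℝ) * (M ^ (m + 1) * s) + 50 / G * M ^ (m + 2) =
      1 * (M ^ (m + 1) * s) + (3 * (M ^ (m + 1) * s) + (17 * (M ^ (m + 1) * s) + ((C * G ^ 4) * (M ^ (m + 1) * s) +
        (50 / G * M ^ (m + 2) + 50 * (2 * m + 5) * (M ^ (m + 1) * s))))) := by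
    ring
  rw [e1]
  linarith

/-- from the bounds to the limit -/
theorem tendsto_zero {m : ℕ} {F : ℕ → ℝ} (hF : ∀ N, 0 ≤ F N) {B : ℝ} (hB : 0 < B) (A : ℕ → ℝ)
    (h : ∀ G : ℕ, 0 < G → ∀ N : ℕ, F N ≤ A G * (((N : ℝ) + 1) ^ (m + 1) * √((N : ℝ) + 1)) +
      B / G * ((N : ℝ) + 1) ^ (m + 2)) :
    Filter.Tendsto (fun N : ℕ => F N / ((N : ℝ) + 1) ^ (m + 1 + 1)) Filter.atTop (nhds 0) := by
  rw [Metric.tendsto_atTop]
  intro ε hε
  obtain ⟨G, hG⟩ := exists_nat_gt (2 * B / ε)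
  have hG0 : (0 : ℝ) < G := lt_of_le_of_lt (by positivity) hG
  have hG1 : 0 < G := by exact_mod_cast hG0
  have hlim : Filter.Tendsto (fun N : ℕ => A G / √((N : ℝ) + 1)) Filter.atTop (nhds 0) := by
    refine Filter.Tendsto.div_atTop tendsto_const_nhds ?_
    exact Real.tendsto_sqrt_atTop.comp (Filter.tendsto_atTop_add_const_right _ _ tendsto_natCast_atTop_atTop)
  rw [Metric.tendsto_atTop] at hlim
  obtain ⟨N0, hN0⟩ := hlim (ε / 2) (by positivity)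
  refine ⟨N0, fun N hN => ?_⟩
  have h1 := hN0 N hN
  rw [Real.dist_eq, sub_zero] at h1
  have h1' := lt_of_abs_lt h1
  have h4 := h G hG1 N
  obtain ⟨M, hM⟩ : ∃ M : ℝ, M = (N : ℝ) + 1 := ⟨_, rfl⟩
  have hM1 : 1 ≤ M := by
    have : (0 : ℝ) ≤ N := Nat.cast_nonneg N
    linarith
  have hM0 : 0 < M := by linarith
  rw [← hM] at h4 h1' ⊢
  have hP : 0 < M ^ (m + 1 + 1) := by positivity
  have hb0 := hF N
  rw [Real.dist_eq, sub_zero, abs_of_nonneg (by positivity)]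
  have h7 : F N / M ^ (m + 1 + 1) ≤ A G / √M + B / G := by
    rw [div_le_iff₀ hP]
    refine h4.trans (le_of_eq ?_)
    have h8 : √M ≠ 0 := (Real.sqrt_pos.2 hM0).ne'
    have h9 : √M * √M = M := Real.mul_self_sqrt hM0.le
    have h10 : M ^ (m + 1 + 1) = M ^ (m + 1) * (√M * √M) := by
      rw [h9]
      ring
    rw [show m + 2 = m + 1 + 1 from rfl, h10]
    field_simp
  have h8 : B / (G : ℝ) < ε / 2 := by
    rw [div_lt_iff₀ hε] at hG
    rw [div_lt_iff₀ hG0]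
    linarith
  linarith

end TF
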