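import Mathlib

/-!
Project TF (MP_b8862a_ag), density: counting lemmas.
-/

open Finset

namespace TF

/-- Counting by one coordinate. -/
theorem card_fib {m N K : ℕ} (j : Fin (m + 1)) (P : (Fin (m + 1) → Fin (N + 1)) → Prop) [DecidablePred P]
    (hK : ∀ t : Fin m → Fin (N + 1), (univ.filter fun x : Fin (N + 1) => P (j.insertNth x t)).card ≤ K) :
    (univ.filter P).card ≤ (N + 1) ^ m * K := by
  classical
  have h1 : (univ.filter P).card = ∑ t : Fin m → Fin (N + 1),
      (univ.filter fun x : Fin (N + 1) => P (j.insertNth x t)).card := by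
    simp only [Finset.card_filter]
    rw [Finset.sum_comm, ← Fintype.sum_prod_type']
    exact (Equiv.sum_comp (Fin.insertNthEquiv (fun _ => Fin (N + 1)) j) (fun h => if P h then 1 else 0)).symm
  rw [h1]
  calc ∑ t : Fin m → Fin (N + 1), (univ.filter fun x : Fin (N + 1) => P (j.insertNth x t)).card
      ≤ ∑ _t : Fin m → Fin (N + 1), K := Finset.sum_le_sum fun t _ => hK t
    _ = (N + 1) ^ m * K := by
      rw [Finset.sum_const, smul_eq_mul, Finset.card_univ, Fintype.card_fun, Fintype.card_fin, Fintype.card_fin]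

/-- Squares in an arithmetic progression. -/
theorem card_sq {N c : ℕ} (hc : 0 < c) (A : ℕ) :
    (univ.filter fun x : Fin (N + 1) => IsSquare (c * (x : ℕ) + A)).card ≤ Nat.sqrt (c * N) + 1 := by
  classical
  obtain ⟨S, hS⟩ : ∃ S : Finset (Fin (N + 1)), S = univ.filter fun x : Fin (N + 1) => IsSquare (c * (x : ℕ) + A) :=
    ⟨_, rfl⟩
  rw [← hS]
  rcases S.eq_empty_or_nonempty with h0 | h0
  · rw [h0]
    simp
  obtain ⟨x0, hx0, hmin⟩ := S.exists_min_image (fun x : Fin (N + 1) => (x : ℕ)) h0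
  have hsq : ∀ x ∈ S, ∃ k : ℕ, c * (x : ℕ) + A = k * k := fun x hx => by
    rw [hS] at hx
    exact (Finset.mem_filter.1 hx).2
  obtain ⟨k0, hk0⟩ := hsq x0 hx0
  have h1 : S.card ≤ (Finset.Icc k0 (k0 + Nat.sqrt (c * N))).card := by
    refine Finset.card_le_card_of_injOn (fun x => Nat.sqrt (c * (x : ℕ) + A)) ?_ ?_
    · intro x hx
      obtain ⟨k, hk⟩ := hsq x hx
      have h2 : Nat.sqrt (c * (x : ℕ) + A) = k := by rw [hk, Nat.sqrt_eq]
      have h3 := hmin x hx
      have h4 : (x : ℕ) ≤ N := Nat.le_of_lt_succ x.2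
      have h5 : k0 ≤ k := by
        by_contra h6
        push Not at h6
        have h7 : k * k < k0 * k0 := Nat.mul_self_lt_mul_self h6
        have h8 : c * (x0 : ℕ) ≤ c * (x : ℕ) := Nat.mul_le_mul_left c h3
        omega
      obtain ⟨e, rfl⟩ := Nat.exists_eq_add_of_le h5
      have h6 : e * e ≤ c * N := by
        have h8 : c * (x : ℕ) ≤ c * N := Nat.mul_le_mul_left c h4
        nlinarith
      have h7 : e ≤ Nat.sqrt (c * N) := Nat.le_sqrt.2 h6
      simp only [Finset.coe_Icc, Set.mem_Icc]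
      rw [h2]
      omega
    · intro x hx y hy hxy
      obtain ⟨k, hk⟩ := hsq x hx
      obtain ⟨l, hl⟩ := hsq y hy
      have h2 : Nat.sqrt (c * (x : ℕ) + A) = Nat.sqrt (c * (y : ℕ) + A) := hxy
      rw [hk, hl, Nat.sqrt_eq, Nat.sqrt_eq] at h2
      subst h2
      have h3 : c * (x : ℕ) = c * (y : ℕ) := by omega
      exact Fin.ext (Nat.eq_of_mul_eq_mul_left hc h3)
  refine h1.trans ?_
  rw [Nat.card_Icc]
  omega

/-- Multiples of `d` in an arithmetic progression. -/
theorem card_dvd {N c d : ℕ} (hc : 0 < c) (hd : 0 < d) (A : ℕ) :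
    (univ.filter fun x : Fin (N + 1) => d ∣ c * (x : ℕ) + A).card ≤ c * N / d + 1 := by
  classical
  obtain ⟨S, hS⟩ : ∃ S : Finset (Fin (N + 1)), S = univ.filter fun x : Fin (N + 1) => d ∣ c * (x : ℕ) + A :=
    ⟨_, rfl⟩
  rw [← hS]
  rcases S.eq_empty_or_nonempty with h0 | h0
  · rw [h0]
    simp
  obtain ⟨x0, hx0, hmin⟩ := S.exists_min_image (fun x : Fin (N + 1) => (x : ℕ)) h0
  have hsq : ∀ x ∈ S, ∃ k : ℕ, c * (x : ℕ) + A = d * k := fun x hx => by
    rw [hS] at hx
    exact (Finset.mem_filter.1 hx).2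
  obtain ⟨k0, hk0⟩ := hsq x0 hx0
  have h1 : S.card ≤ (Finset.Icc k0 (k0 + c * N / d)).card := by
    refine Finset.card_le_card_of_injOn (fun x => (c * (x : ℕ) + A) / d) ?_ ?_
    · intro x hx
      obtain ⟨k, hk⟩ := hsq x hx
      have h2 : (c * (x : ℕ) + A) / d = k := by rw [hk, Nat.mul_div_cancel_left _ hd]
      have h3 := hmin x hx
      have h4 : (x : ℕ) ≤ N := Nat.le_of_lt_succ x.2
      have h8 : c * (x0 : ℕ) ≤ c * (x : ℕ) := Nat.mul_le_mul_left c h3
      have h5 : k0 ≤ k := by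
        by_contra h6
        push Not at h6
        have h7 : d * k < d * k0 := Nat.mul_lt_mul_of_pos_left h6 hd
        omega
      obtain ⟨e, rfl⟩ := Nat.exists_eq_add_of_le h5
      have h6 : e * d ≤ c * N := by
        have h8 : c * (x : ℕ) ≤ c * N := Nat.mul_le_mul_left c h4
        nlinarith
      have h7 : e ≤ c * N / d := (Nat.le_div_iff_mul_le hd).2 h6
      simp only [Finset.coe_Icc, Set.mem_Icc]
      rw [h2]
      omega
    · intro x hx y hy hxy
      obtain ⟨k, hk⟩ := hsq x hx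
      obtain ⟨l, hl⟩ := hsq y hy
      have h2 : (c * (x : ℕ) + A) / d = (c * (y : ℕ) + A) / d := hxy
      rw [hk, hl, Nat.mul_div_cancel_left _ hd, Nat.mul_div_cancel_left _ hd] at h2
      subst h2
      have h3 : c * (x : ℕ) = c * (y : ℕ) := by omega
      exact Fin.ext (Nat.eq_of_mul_eq_mul_left hc h3)
  refine h1.trans ?_
  rw [Nat.card_Icc]
  generalize c * N / d = q
  omega

/-- The pairs with a bounded product. -/
theorem card_pairs (K : ℕ) :
    ((Finset.Icc 1 K ×ˢ Finset.Icc 1 K).filter fun p : ℕ × ℕ => p.1 * p.2 ≤ K).card ≤ 2 * (Nat.sqrt K * K) := by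
  classical
  have h1 : ((Finset.Icc 1 K ×ˢ Finset.Icc 1 K).filter fun p : ℕ × ℕ => p.1 * p.2 ≤ K) ⊆
      (Finset.Icc 1 (Nat.sqrt K) ×ˢ Finset.Icc 1 K) ∪ (Finset.Icc 1 K ×ˢ Finset.Icc 1 (Nat.sqrt K)) := by
    intro p hp
    rw [Finset.mem_filter, Finset.mem_product, Finset.mem_Icc, Finset.mem_Icc] at hp
    obtain ⟨⟨⟨a1, a2⟩, b1, b2⟩, h⟩ := hp
    rw [Finset.mem_union, Finset.mem_product, Finset.mem_product]
    simp only [Finset.mem_Icc]
    by_cases h2 : p.1 ≤ Nat.sqrt K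
    · exact Or.inl ⟨⟨a1, h2⟩, b1, b2⟩
    · by_cases h3 : p.2 ≤ Nat.sqrt K
      · exact Or.inr ⟨⟨a1, a2⟩, b1, h3⟩
      · exfalso
        push Not at h2 h3
        have h4 : K < (Nat.sqrt K + 1) * (Nat.sqrt K + 1) := Nat.lt_succ_sqrt K
        have h5 : (Nat.sqrt K + 1) * (Nat.sqrt K + 1) ≤ p.1 * p.2 := Nat.mul_le_mul h2 h3
        omega
  refine (Finset.card_le_card h1).trans ((Finset.card_union_le _ _).trans ?_)
  rw [Finset.card_product, Finset.card_product, Nat.card_Icc, Nat.card_Icc]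
  simp only [Nat.add_sub_cancel]
  rw [mul_comm K]
  omega

end TF
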