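import Pool.Agent.Helper55.NI.Pal
import Pool.Agent.Helper3.TF.Cnt

/-!
Project TF (MP_b8862a_ag), density: decomposable vectors.
-/

open Finset

namespace TF

/-- The symmetric function on the integers with the value `h j` at the distance `j` from zero. -/
def sym (m : ℕ) (h : Fin (m + 1) → ℕ) (k : ℤ) : ℕ := if hk : k.natAbs < m + 1 then h ⟨k.natAbs, hk⟩ else 0

/-- The Hodge numbers `h_p`, `0 ≤ p ≤ 2 m`, if `h j` is the Hodge number at the distance `j` from the middle. -/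
def hv (m : ℕ) (h : Fin (m + 1) → ℕ) (p : ℤ) : ℕ := sym m h (p - m)

/-- the dimension -/
def dimn {m : ℕ} (h : Fin (m + 1) → ℕ) : ℕ := h 0 + 2 * ∑ j : Fin m, h j.succ

/-- `∑ (2 p - 2 m) ^ 2 h_p` -/
def tr2 {m : ℕ} (h : Fin (m + 1) → ℕ) : ℕ := 8 * ∑ j : Fin m, ((j : ℕ) + 1) ^ 2 * h j.succ

theorem sym_of_lt {m : ℕ} {h : Fin (m + 1) → ℕ} {k : ℤ} (hk : k.natAbs < m + 1) : sym m h k = h ⟨k.natAbs, hk⟩ :=
  dif_pos hk

theorem sym_of_ge {m : ℕ} {h : Fin (m + 1) → ℕ} {k : ℤ} (hk : m < k.natAbs) : sym m h k = 0 :=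
  dif_neg (by omega)

theorem sym_neg {m : ℕ} {h : Fin (m + 1) → ℕ} (k : ℤ) : sym m h (-k) = sym m h k := by
  unfold sym
  simp only [Int.natAbs_neg]

theorem sum_natAbs {R : Type*} [CommSemiring R] (F : ℕ → R) (m : ℕ) :
    ∑ l ∈ Icc (-(m : ℤ)) m, F l.natAbs = F 0 + 2 * ∑ j ∈ range m, F (j + 1) := by
  induction m with
  | zero => simp
  | succ m ih =>
    have h1 : Icc (-((m + 1 : ℕ) : ℤ)) ((m + 1 : ℕ) : ℤ) =
        insert ((m + 1 : ℕ) : ℤ) (insert (-((m + 1 : ℕ) : ℤ)) (Icc (-(m : ℤ)) m)) := by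
      ext x
      simp only [mem_Icc, mem_insert]
      push_cast
      omega
    rw [h1, sum_insert, sum_insert, ih, sum_range_succ]
    · simp only [Int.natAbs_neg, Int.natAbs_natCast]
      ring
    · simp only [mem_Icc]
      push_cast
      omega
    · simp only [mem_insert, mem_Icc]
      push_cast
      omega

theorem sum_sym {R : Type*} [CommSemiring R] {m : ℕ} (h : Fin (m + 1) → ℕ) (c : ℕ → R) :
    ∑ l ∈ Icc (-(m : ℤ)) m, c l.natAbs * (sym m h l : R) =
      c 0 * (h 0 : R) + 2 * ∑ j : Fin m, c (j + 1) * (h j.succ : R) := by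
  obtain ⟨F, hF⟩ : ∃ F : ℕ → R, F = fun j : ℕ => c j * ((if hj : j < m + 1 then h ⟨j, hj⟩ else 0 : ℕ) : R) :=
    ⟨_, rfl⟩
  have h1 : ∑ l ∈ Icc (-(m : ℤ)) m, c l.natAbs * (sym m h l : R) = ∑ l ∈ Icc (-(m : ℤ)) m, F l.natAbs := by
    refine sum_congr rfl fun l _ => ?_
    rw [hF]
    rfl
  rw [h1, sum_natAbs, Finset.sum_range, hF]
  have h3 : ∑ j : Fin m, (fun j : ℕ => c j * ((if hj : j < m + 1 then h ⟨j, hj⟩ else 0 : ℕ) : R)) ((j : ℕ) + 1) =
      ∑ j : Fin m, c (j + 1) * (h j.succ : R) := by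
    refine sum_congr rfl fun j _ => ?_
    have h2 : (j : ℕ) + 1 < m + 1 := by omega
    simp only [dif_pos h2]
    rfl
  rw [h3]
  have h2 : (0 : ℕ) < m + 1 := by omega
  simp only [dif_pos h2]
  rfl

theorem sum_sym_dimn {m : ℕ} (h : Fin (m + 1) → ℕ) : ∑ l ∈ Icc (-(m : ℤ)) m, sym m h l = dimn h := by
  have h1 := sum_sym (R := ℕ) h (fun _ => 1)
  simpa [dimn] using h1

theorem sum_shift {R : Type*} [AddCommMonoid R] (m : ℕ) (F : ℤ → R) :
    ∑ p ∈ Icc (0 : ℤ) (2 * m), F p = ∑ l ∈ Icc (-(m : ℤ)) m, F (l + m) := by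
  refine sum_nbij' (fun p => p - m) (fun l => l + m) ?_ ?_ ?_ ?_ ?_
  · intro p hp
    rw [mem_Icc] at hp ⊢
    omega
  · intro p hp
    rw [mem_Icc] at hp ⊢
    omega
  · intro p _
    ring
  · intro p _
    ring
  · intro p _
    congr 1
    ring

theorem sum_hv {m : ℕ} (h : Fin (m + 1) → ℕ) : ∑ p ∈ Icc (0 : ℤ) (2 * m), hv m h p = dimn h := by
  rw [sum_shift, ← sum_sym_dimn]
  refine sum_congr rfl fun l _ => ?_
  unfold hv
  rw [add_sub_cancel_right]

theorem sum_hv2 {m : ℕ} (h : Fin (m + 1) → ℕ) :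
    ∑ p ∈ Icc (0 : ℤ) (2 * m), (2 * p - 2 * (m : ℤ)) ^ 2 * (hv m h p : ℤ) = (tr2 h : ℤ) := by
  rw [sum_shift]
  have h1 := sum_sym (R := ℤ) h (fun j => (2 * (j : ℤ)) ^ 2)
  have h2 : ∀ l ∈ Icc (-(m : ℤ)) m, (2 * (l + m) - 2 * (m : ℤ)) ^ 2 * (hv m h (l + m) : ℤ) =
      (2 * ((l.natAbs : ℕ) : ℤ)) ^ 2 * (sym m h l : ℤ) := by
    intro l _
    unfold hv
    rw [add_sub_cancel_right]
    congr 1
    have h3 : ((l.natAbs : ℕ) : ℤ) ^ 2 = l ^ 2 := Int.natAbs_sq l
    rw [mul_pow 2, h3]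
    ring
  refine (sum_congr rfl h2).trans (h1.trans ?_)
  unfold tr2
  push_cast
  rw [zero_mul, zero_add, mul_sum, mul_sum]
  refine sum_congr rfl fun j _ => ?_
  ring

/-- sums of a convolution with a multiplicative weight -/
theorem sum_conv {χ : ℤ → ℤ} (hχ : ∀ x y, χ (x + y) = χ x * χ y) (f g : ℤ →₀ ℕ) {r : ℤ → ℕ}
    (hr : ∀ p : ℤ, r p = f.sum fun i x => x * g (p - i)) (W : Finset ℤ)
    (hW : ∀ i ∈ f.support, ∀ j ∈ g.support, i + j ∈ W) :
    ∑ p ∈ W, χ p * (r p : ℤ) = (∑ i ∈ f.support, χ i * (f i : ℤ)) * ∑ j ∈ g.support, χ j * (g j : ℤ) := by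
  have h1 : ∀ p ∈ W, χ p * (r p : ℤ) = ∑ i ∈ f.support, χ p * ((f i : ℤ) * (g (p - i) : ℤ)) := by
    intro p _
    rw [hr p, Finsupp.sum, Nat.cast_sum, mul_sum]
    refine sum_congr rfl fun i _ => ?_
    push_cast
    rfl
  rw [sum_congr rfl h1, sum_comm, sum_mul]
  refine sum_congr rfl fun i hi => ?_
  rw [mul_sum]
  symm
  refine sum_of_injOn (fun j => i + j) (fun x _ y _ hxy => add_left_cancel hxy) (fun j hj => hW i hi j hj) ?_ ?_
  · intro p _ hp
    have h2 : g (p - i) = 0 := by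
      by_contra h3
      apply hp
      refine ⟨p - i, ?_, by ring⟩
      rw [mem_coe, Finsupp.mem_support_iff]
      exact h3
    rw [h2]
    push_cast
    ring
  · intro j _
    rw [hχ, add_sub_cancel_left]
    ring

/-- the decompositions with even widths -/
def Conv (m i j : ℕ) (h : Fin (m + 1) → ℕ) (u : Fin (i + 1) → ℕ) (v : Fin (j + 1) → ℕ) : Prop :=
  ∀ k : ℤ, sym m h k = ∑ l ∈ Icc (-(i : ℤ)) i, sym i u l * sym j v (k - l)

theorem Conv.dimn_mul {m i j : ℕ} {h : Fin (m + 1) → ℕ} {u : Fin (i + 1) → ℕ} {v : Fin (j + 1) → ℕ}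
    (H : Conv m i j h u v) (hm : i + j = m) : dimn u * dimn v = dimn h := by
  rw [← sum_sym_dimn h, ← sum_sym_dimn u, sum_congr rfl fun k _ => H k, sum_comm, sum_mul]
  refine sum_congr rfl fun l hl => ?_
  rw [← mul_sum, ← sum_sym_dimn v]
  congr 1
  rw [mem_Icc] at hl
  refine sum_of_injOn (fun q => q + l) (fun x _ y _ hxy => add_right_cancel hxy) ?_ ?_ ?_
  · intro q hq
    rw [mem_coe, mem_Icc] at hq
    rw [mem_coe, mem_Icc]
    show -(m : ℤ) ≤ q + l ∧ q + l ≤ m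
    omega
  · intro k _ hk
    refine sym_of_ge ?_
    by_contra h1
    apply hk
    refine ⟨k - l, ?_, by ring⟩
    rw [mem_coe, mem_Icc]
    omega
  · intro q _
    rw [add_sub_cancel_right]

theorem Conv.ext {m i j : ℕ} {h h' : Fin (m + 1) → ℕ} {u : Fin (i + 1) → ℕ} {v : Fin (j + 1) → ℕ}
    (H : Conv m i j h u v) (H' : Conv m i j h' u v) : h = h' := by
  funext x
  have h1 := H (x : ℕ)
  have h2 := H' (x : ℕ)
  rw [← h1] at h2
  have h3 : ((x : ℕ) : ℤ).natAbs < m + 1 := by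
    rw [Int.natAbs_natCast]
    exact x.2
  rw [sym_of_lt h3, sym_of_lt h3] at h2
  have h4 : (⟨((x : ℕ) : ℤ).natAbs, h3⟩ : Fin (m + 1)) = x := Fin.ext (Int.natAbs_natCast _)
  rw [h4] at h2
  exact h2.symm

/-- the width of a symmetric finitely supported function -/
theorem exists_low {f : ℤ →₀ ℕ} {a : ℤ} (hf : ∀ j, f (a - j) = f j) (h2 : ¬ f.support.card ≤ 1) :
    ∃ α : ℤ, f α ≠ 0 ∧ α < a - α ∧ ∀ x, f x ≠ 0 → α ≤ x ∧ x ≤ a - α := by
  have hne : f.support.Nonempty := by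
    rw [← Finset.card_pos]
    omega
  obtain ⟨α, hα, hmin⟩ := f.support.exists_min_image id hne
  have h3 : ∀ x, f x ≠ 0 → α ≤ x ∧ x ≤ a - α := by
    intro x hx
    have h4 := hmin x (Finsupp.mem_support_iff.2 hx)
    have h5 := hmin (a - x) (Finsupp.mem_support_iff.2 (by rw [hf]; exact hx))
    simp only [id] at h4 h5
    omega
  refine ⟨α, Finsupp.mem_support_iff.1 hα, ?_, h3⟩
  by_contra h4
  apply h2
  rw [Finset.card_le_one]
  intro x hx y hy
  have h5 := h3 x (Finsupp.mem_support_iff.1 hx)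
  have h6 := h3 y (Finsupp.mem_support_iff.1 hy)
  omega

/-- Decomposable vectors. -/
theorem dec_cases {m : ℕ} {h : Fin (m + 1) → ℕ} (hI : ¬ NI.Indec (2 * m) (hv m h)) :
    h (Fin.last m) = 0 ∨ ∑ p ∈ Icc (0 : ℤ) (2 * m), ((-1 : ℤˣ) ^ p : ℤˣ) * (hv m h p : ℤ) = 0 ∨
      ∃ i j : ℕ, 1 ≤ i ∧ 1 ≤ j ∧ i + j = m ∧ ∃ (u : Fin (i + 1) → ℕ) (v : Fin (j + 1) → ℕ), Conv m i j h u v := by
  by_contra hcon
  push Not at hcon
  obtain ⟨h0, h1, hc⟩ := hcon
  apply hI
  intro a f g hf hg hr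
  by_contra h2
  push Not at h2
  obtain ⟨h2, h3⟩ := h2
  obtain ⟨α, fα, wα, rα⟩ := exists_low hf (by omega)
  obtain ⟨β, gβ, wβ, rβ⟩ := exists_low hg (by omega)
  have hvz : ∀ p : ℤ, hv m h p ≠ 0 → 0 ≤ p ∧ p ≤ 2 * m := by
    intro p hp
    by_contra h4
    apply hp
    exact sym_of_ge (by omega)
  have hconv : ∀ p : ℤ, hv m h p ≠ 0 → ∃ x y, f x ≠ 0 ∧ g y ≠ 0 ∧ x + y = p := by
    intro p hp
    rw [hr p, Finsupp.sum] at hp
    obtain ⟨x, hx, hxy⟩ := Finset.exists_ne_zero_of_sum_ne_zero hp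
    exact ⟨x, p - x, left_ne_zero_of_mul hxy, right_ne_zero_of_mul hxy, by ring⟩
  -- the lowest degree
  have e1 : hv m h (α + β) = f α * g β := by
    rw [hr, Finsupp.sum, Finset.sum_eq_single α]
    · rw [add_sub_cancel_left]
    · intro x hx hxα
      have h4 := rα x (Finsupp.mem_support_iff.1 hx)
      have h5 : g (α + β - x) = 0 := by
        by_contra h6
        have := rβ _ h6
        omega
      rw [h5, mul_zero]
    · intro hx
      exact absurd (Finsupp.mem_support_iff.2 fα) hx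
  have e2 : 0 ≤ α + β := (hvz _ (by rw [e1]; exact mul_ne_zero fα gβ)).1
  have e3 : hv m h 0 ≠ 0 := by
    have h4 : (0 - (m : ℤ)).natAbs < m + 1 := by omega
    have h5 : hv m h 0 = h (Fin.last m) := by
      unfold hv
      rw [sym_of_lt h4]
      congr 1
      apply Fin.ext
      simp only [Fin.val_last]
      omega
    rw [h5]
    exact h0
  have e4 : α + β ≤ 0 := by
    obtain ⟨x, y, hx, hy, hxy⟩ := hconv 0 e3
    have := rα x hx
    have := rβ y hy
    omega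
  have e5 : β = -α := by omega
  subst e5
  -- the parity of `a`
  have ha : Even a := by
    rw [← Int.not_odd_iff_even]
    intro ho
    apply h1
    have hχ : ∀ x y : ℤ, (((-1 : ℤˣ) ^ (x + y) : ℤˣ) : ℤ) = ((-1 : ℤˣ) ^ x : ℤˣ) * ((-1 : ℤˣ) ^ y : ℤˣ) := by
      intro x y
      rw [zpow_add]
      push_cast
      rfl
    rw [sum_conv (χ := fun p => (((-1 : ℤˣ) ^ p : ℤˣ) : ℤ)) hχ f g hr]
    · have h4 : ∑ i ∈ f.support, (((-1 : ℤˣ) ^ i : ℤˣ) : ℤ) * (f i : ℤ) = 0 := by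
        have h5 : ∑ i ∈ f.support, (((-1 : ℤˣ) ^ i : ℤˣ) : ℤ) * (f i : ℤ) =
            ∑ i ∈ f.support, -((((-1 : ℤˣ) ^ i : ℤˣ) : ℤ) * (f i : ℤ)) := by
          refine sum_nbij' (fun i => a - i) (fun i => a - i) ?_ ?_ ?_ ?_ ?_
          · intro i hi
            rw [Finsupp.mem_support_iff] at hi ⊢
            rw [hf]
            exact hi
          · intro i hi
            rw [Finsupp.mem_support_iff] at hi ⊢
            rw [hf]
            exact hi
          · intro i _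
            ring
          · intro i _
            ring
          · intro i _
            rw [hf, zpow_sub, ho.neg_one_zpow]
            rcases Int.even_or_odd i with h6 | h6
            · rw [h6.neg_one_zpow]
              simp
            · rw [h6.neg_one_zpow]
              simp
        rw [sum_neg_distrib] at h5
        omega
      rw [h4, zero_mul]
    · intro x hx y hy
      have := rα x (Finsupp.mem_support_iff.1 hx)
      have := rβ y (Finsupp.mem_support_iff.1 hy)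
      rw [mem_Icc]
      omega
  obtain ⟨b, hb⟩ := ha
  obtain ⟨i, hi⟩ : ∃ i : ℕ, (i : ℤ) = b - α := ⟨(b - α).toNat, Int.toNat_of_nonneg (by omega)⟩
  obtain ⟨j, hj⟩ : ∃ j : ℕ, (j : ℤ) = m - b + α := ⟨(m - b + α).toNat, Int.toNat_of_nonneg (by omega)⟩
  have hu : ∀ l : ℤ, sym i (fun x : Fin (i + 1) => f (b + (x : ℕ))) l = f (b + l) := by
    intro l
    by_cases h4 : l.natAbs < i + 1
    · rw [sym_of_lt h4]
      simp only
      rcases Int.natAbs_eq l with h5 | h5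
      · rw [← h5]
      · have h6 : ((l.natAbs : ℕ) : ℤ) = -l := by omega
        rw [h6, ← hf (b + l)]
        congr 1
        omega
    · rw [sym_of_ge (by omega)]
      by_contra h5
      have := rα _ (Ne.symm h5)
      omega
  have hv' : ∀ l : ℤ, sym j (fun x : Fin (j + 1) => g (m - b + (x : ℕ))) l = g (m - b + l) := by
    intro l
    by_cases h4 : l.natAbs < j + 1
    · rw [sym_of_lt h4]
      simp only
      rcases Int.natAbs_eq l with h5 | h5
      · rw [← h5]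
      · have h6 : ((l.natAbs : ℕ) : ℤ) = -l := by omega
        rw [h6, ← hg (m - b + l)]
        congr 1
        omega
    · rw [sym_of_ge (by omega)]
      by_contra h5
      have := rβ _ (Ne.symm h5)
      omega
  refine hc i j (by omega) (by omega) (by omega) (fun x : Fin (i + 1) => f (b + (x : ℕ)))
    (fun x : Fin (j + 1) => g (m - b + (x : ℕ))) ?_
  intro k
  have h4 : sym m h k = hv m h (k + m) := by
    unfold hv
    rw [add_sub_cancel_right]
  rw [h4, hr, Finsupp.sum]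
  refine sum_of_injOn (fun x => x - b) (fun x _ y _ hxy => by simpa using hxy) ?_ ?_ ?_
  · intro x hx
    have := rα x (Finsupp.mem_support_iff.1 hx)
    rw [mem_coe, mem_Icc]
    show -(i : ℤ) ≤ x - b ∧ x - b ≤ i
    omega
  · intro l _ hl
    rw [hu]
    have h5 : f (b + l) = 0 := by
      by_contra h6
      apply hl
      refine ⟨b + l, ?_, by ring⟩
      rw [mem_coe, Finsupp.mem_support_iff]
      exact h6
    rw [h5, zero_mul]
  · intro x _
    rw [hu, hv']
    congr 2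
    · ring
    · ring

end TF
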