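import Pool.Agent.Helper3.TF.Dec

/-!
Project TF (MP_b8862a_ag), density: almost all vectors of Hodge numbers are good.
-/

open Finset

namespace TF

/-- Counting by one coordinate, with a condition on the others. -/
theorem card_fib2 {m N K : ℕ} (j : Fin (m + 1)) (P : (Fin (m + 1) → Fin (N + 1)) → Prop) [DecidablePred P]
    (Q : (Fin m → Fin (N + 1)) → Prop) [DecidablePred Q] (hPQ : ∀ x t, P (j.insertNth x t) → Q t)
    (hK : ∀ t : Fin m → Fin (N + 1), (univ.filter fun x : Fin (N + 1) => P (j.insertNth x t)).card ≤ K) :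
    (univ.filter P).card ≤ (univ.filter Q).card * K := by
  classical
  have h1 : (univ.filter P).card = ∑ t : Fin m → Fin (N + 1),
      (univ.filter fun x : Fin (N + 1) => P (j.insertNth x t)).card := by
    simp only [Finset.card_filter]
    rw [Finset.sum_comm, ← Fintype.sum_prod_type']
    exact (Equiv.sum_comp (Fin.insertNthEquiv (fun _ => Fin (N + 1)) j) (fun h => if P h then 1 else 0)).symm
  rw [h1, Finset.card_filter, Finset.sum_mul]
  refine Finset.sum_le_sum fun t _ => ?_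
  by_cases hQ : Q t
  · rw [if_pos hQ, one_mul]
    exact hK t
  · rw [if_neg hQ, zero_mul, Nat.le_zero, Finset.card_eq_zero, Finset.filter_eq_empty_iff]
    intro x _ hx
    exact hQ (hPQ x t hx)

theorem ins_zero {m N : ℕ} (x : Fin (N + 1)) (t : Fin m → Fin (N + 1)) :
    (Fin.insertNth (α := fun _ => Fin (N + 1)) (0 : Fin (m + 1)) x t) 0 = x :=
  Fin.insertNth_apply_same (α := fun _ => Fin (N + 1)) 0 x t

theorem ins_succ {m N : ℕ} (x : Fin (N + 1)) (t : Fin m → Fin (N + 1)) (j : Fin m) :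
    (Fin.insertNth (α := fun _ => Fin (N + 1)) (0 : Fin (m + 1)) x t) j.succ = t j := by
  have h1 := Fin.insertNth_apply_succAbove (α := fun _ => Fin (N + 1)) (0 : Fin (m + 1)) x t j
  rw [Fin.zero_succAbove] at h1
  exact h1

theorem card_last {m N : ℕ} :
    (univ.filter fun h : Fin (m + 1) → Fin (N + 1) => ((h (Fin.last m) : Fin (N + 1)) : ℕ) = 0).card ≤
      (N + 1) ^ m * 1 := by
  classical
  refine card_fib (Fin.last m) _ fun t => ?_
  rw [Finset.card_le_one]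
  intro x hx y hy
  rw [mem_filter, Fin.insertNth_apply_same] at hx hy
  exact Fin.ext (hx.2.trans hy.2.symm)

theorem alt_sum {m : ℕ} (h : Fin (m + 1) → ℕ) :
    ∑ p ∈ Icc (0 : ℤ) (2 * m), ((-1 : ℤˣ) ^ p : ℤˣ) * (hv m h p : ℤ) =
      (-1) ^ m * ((h 0 : ℤ) + 2 * ∑ j : Fin m, (-1) ^ ((j : ℕ) + 1) * (h j.succ : ℤ)) := by
  rw [sum_shift]
  have h1 := sum_sym (R := ℤ) h (fun j => (-1) ^ j)
  rw [pow_zero, one_mul] at h1
  rw [← h1, mul_sum]
  refine sum_congr rfl fun l _ => ?_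
  unfold hv
  rw [add_sub_cancel_right, zpow_add]
  have h2 : (((-1 : ℤˣ) ^ l : ℤˣ) : ℤ) = (-1) ^ l.natAbs := by
    rcases Int.even_or_odd l with h3 | h3
    · rw [h3.neg_one_zpow, (Int.natAbs_even.2 h3).neg_one_pow]
      rfl
    · rw [h3.neg_one_zpow, (Int.natAbs_odd.2 h3).neg_one_pow]
      rfl
  rw [Units.val_mul, h2, zpow_natCast, Units.val_pow_eq_pow_val, Units.val_neg, Units.val_one]
  ring

theorem card_alt {m N : ℕ} :
    (univ.filter fun h : Fin (m + 1) → Fin (N + 1) =>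
      ∑ p ∈ Icc (0 : ℤ) (2 * m), ((-1 : ℤˣ) ^ p : ℤˣ) * (hv m (fun j => (h j : ℕ)) p : ℤ) = 0).card ≤
      (N + 1) ^ m * 1 := by
  classical
  refine card_fib 0 _ fun t => ?_
  rw [Finset.card_le_one]
  intro x hx y hy
  rw [mem_filter, alt_sum, mul_eq_zero, or_iff_right (pow_ne_zero m (by norm_num))] at hx hy
  simp only [ins_zero, ins_succ] at hx hy
  have h1 := hx.2
  have h2 := hy.2
  exact Fin.ext (by omega)

theorem card_sq1 {m N : ℕ} :
    (univ.filter fun h : Fin (m + 1) → Fin (N + 1) => IsSquare (dimn (fun j => (h j : ℕ)) + 1)).card ≤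
      (N + 1) ^ m * (Nat.sqrt N + 1) := by
  classical
  refine card_fib 0 _ fun t => ?_
  have h1 := card_sq (N := N) (c := 1) one_pos (2 * ∑ j : Fin m, (t j : ℕ) + 1)
  rw [one_mul] at h1
  refine le_trans (le_of_eq ?_) h1
  congr 1
  ext x
  simp only [mem_filter, mem_univ, true_and, dimn, ins_zero, ins_succ, one_mul, add_assoc]

theorem card_sq8 {m N : ℕ} :
    (univ.filter fun h : Fin (m + 1) → Fin (N + 1) => IsSquare (8 * dimn (fun j => (h j : ℕ)) + 1)).card ≤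
      (N + 1) ^ m * (Nat.sqrt (8 * N) + 1) := by
  classical
  refine card_fib 0 _ fun t => ?_
  have h1 := card_sq (N := N) (c := 8) (by norm_num) (8 * (2 * ∑ j : Fin m, (t j : ℕ)) + 1)
  refine le_trans (le_of_eq ?_) h1
  congr 1
  ext x
  simp only [mem_filter, mem_univ, true_and, dimn, ins_zero, ins_succ, mul_add, add_assoc]

theorem card_small {m N : ℕ} (A : ℕ) :
    (univ.filter fun h : Fin (m + 1) → Fin (N + 1) => dimn (fun j => (h j : ℕ)) < A).card ≤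
      (N + 1) ^ m * A := by
  classical
  refine card_fib 0 _ fun t => ?_
  have h1 : (univ.filter fun x : Fin (N + 1) =>
      dimn (fun j => ((Fin.insertNth (α := fun _ => Fin (N + 1)) (0 : Fin (m + 1)) x t) j : ℕ)) < A).card ≤
      (range A).card := by
    refine card_le_card_of_injOn (fun x => (x : ℕ)) ?_ fun x _ y _ hxy => Fin.ext hxy
    intro x hx
    rw [mem_coe, mem_filter] at hx
    have h2 := hx.2
    unfold dimn at h2
    simp only [ins_zero] at h2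
    rw [mem_coe, mem_range]
    show (x : ℕ) < A
    omega
  rw [card_range] at h1
  exact h1

theorem card_dd {m N d : ℕ} (hd : 0 < d) :
    (univ.filter fun h : Fin (m + 1 + 1) → Fin (N + 1) =>
      d ∣ dimn (fun j => (h j : ℕ)) ∧ d ∣ tr2 (fun j => (h j : ℕ))).card ≤
      (N + 1) ^ m * (8 * N / d + 1) * (N / d + 1) := by
  classical
  have h0 : (univ.filter fun t : Fin (m + 1) → Fin (N + 1) =>
      d ∣ 8 * ∑ j : Fin (m + 1), ((j : ℕ) + 1) ^ 2 * (t j : ℕ)).card ≤ (N + 1) ^ m * (8 * N / d + 1) := by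
    refine card_fib 0 _ fun t => ?_
    have h1 := card_dvd (N := N) (c := 8) (by norm_num) hd (8 * ∑ j : Fin m, ((j : ℕ) + 1 + 1) ^ 2 * (t j : ℕ))
    refine le_trans (le_of_eq ?_) h1
    congr 1
    ext x
    simp only [mem_filter, mem_univ, true_and, Fin.sum_univ_succ, ins_zero, ins_succ, mul_add, Fin.val_zero,
      Fin.val_succ, zero_add, one_pow, one_mul]
  refine (card_fib2 (K := N / d + 1) 0 _ (fun t : Fin (m + 1) → Fin (N + 1) =>
      d ∣ 8 * ∑ j : Fin (m + 1), ((j : ℕ) + 1) ^ 2 * (t j : ℕ)) ?_ fun t => ?_).trans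
      (Nat.mul_le_mul_right _ h0)
  · intro x t hx
    have h1 := hx.2
    unfold tr2 at h1
    simp only [ins_succ] at h1
    exact h1
  · have h1 := card_dvd (N := N) (c := 1) one_pos hd (2 * ∑ j : Fin (m + 1), (t j : ℕ))
    rw [one_mul] at h1
    refine le_trans (card_le_card ?_) h1
    intro x hx
    rw [mem_filter] at hx ⊢
    refine ⟨mem_univ _, ?_⟩
    have h2 := hx.2.1
    unfold dimn at h2
    simp only [ins_zero, ins_succ] at h2
    rw [one_mul]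
    exact h2

theorem le_dimn {m : ℕ} (h : Fin (m + 1) → ℕ) (j : Fin (m + 1)) : h j ≤ dimn h := by
  unfold dimn
  refine Fin.cases ?_ (fun i => ?_) j
  · omega
  · have h1 : h i.succ ≤ ∑ j : Fin m, h j.succ :=
      single_le_sum (f := fun j : Fin m => h j.succ) (fun _ _ => Nat.zero_le _) (mem_univ i)
    omega

theorem dimn_le {m N : ℕ} (h : Fin (m + 1) → Fin (N + 1)) : dimn (fun j => (h j : ℕ)) ≤ (2 * m + 1) * N := by
  unfold dimn
  have h1 : ∑ j : Fin m, ((h j.succ : Fin (N + 1)) : ℕ) ≤ ∑ _j : Fin m, N :=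
    sum_le_sum fun j _ => Nat.le_of_lt_succ (h j.succ).2
  rw [sum_const, card_univ, Fintype.card_fin, smul_eq_mul] at h1
  have h2 : ((h 0 : Fin (N + 1)) : ℕ) ≤ N := Nat.le_of_lt_succ (h 0).2
  nlinarith

theorem eq_of_tail {i : ℕ} {u u' : Fin (i + 1) → ℕ} (h : dimn u = dimn u') (ht : ∀ j : Fin i, u j.succ = u' j.succ) :
    u = u' := by
  funext j
  refine Fin.cases ?_ (fun i => ht i) j
  unfold dimn at h
  rw [sum_congr rfl fun j _ => ht j] at h
  omega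

theorem pow_bound {A B K i j m : ℕ} (hA : 1 ≤ A) (hB : 1 ≤ B) (hAB : A * B ≤ K) (hi : 1 ≤ i) (hj : 1 ≤ j)
    (hm : i + j = m) : (A + 1) ^ i * (B + 1) ^ j ≤ 2 ^ m * K ^ (m - 1) := by
  have hAK : A ≤ K := le_trans (Nat.le_mul_of_pos_right A hB) hAB
  have hBK : B ≤ K := le_trans (Nat.le_mul_of_pos_left B hA) hAB
  have hK : 1 ≤ K := hA.trans hAK
  have h1 : (A + 1) ^ i * (B + 1) ^ j ≤ (2 * A) ^ i * (2 * B) ^ j :=
    Nat.mul_le_mul (Nat.pow_le_pow_left (by omega) i) (Nat.pow_le_pow_left (by omega) j)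
  have h2 : (2 * A) ^ i * (2 * B) ^ j = 2 ^ m * (A ^ i * B ^ j) := by
    rw [← hm, mul_pow, mul_pow, pow_add]
    ring
  rw [h2] at h1
  refine h1.trans (Nat.mul_le_mul_left _ ?_)
  have key : ∀ {A B i j : ℕ}, 1 ≤ A → 1 ≤ B → A * B ≤ K → A ≤ K → B ≤ K → 1 ≤ i → i ≤ j → i + j = m →
      A ^ i * B ^ j ≤ K ^ (m - 1) := by
    intro A B i j _ _ hAB _ hBK hi hij hm
    obtain ⟨e, rfl⟩ := Nat.exists_eq_add_of_le hij
    have h3 : A ^ i * B ^ (i + e) = (A * B) ^ i * B ^ e := by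
      rw [mul_pow, pow_add]
      ring
    rw [h3]
    calc (A * B) ^ i * B ^ e ≤ K ^ i * K ^ e :=
          Nat.mul_le_mul (Nat.pow_le_pow_left hAB i) (Nat.pow_le_pow_left hBK e)
      _ = K ^ (i + e) := (pow_add K i e).symm
      _ ≤ K ^ (m - 1) := Nat.pow_le_pow_right hK (by omega)
  rcases Nat.le_total i j with h3 | h3
  · exact key hA hB hAB hAK hBK hi h3 hm
  · rw [mul_comm (A ^ i)]
    exact key hB hA (by rwa [mul_comm]) hBK hAK hj h3 (by omega)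

theorem card_conv {m i j N K : ℕ} (hij : i + j = m) (hi : 1 ≤ i) (hj : 1 ≤ j) (hK : (2 * m + 1) * N ≤ K)
    (S : Finset (Fin (m + 1) → Fin (N + 1)))
    (hS : ∀ h ∈ S, ((h (Fin.last m) : Fin (N + 1)) : ℕ) ≠ 0 ∧
      ∃ (u : Fin (i + 1) → ℕ) (v : Fin (j + 1) → ℕ), Conv m i j (fun x => (h x : ℕ)) u v) :
    S.card ≤ 2 ^ (m + 1) * (Nat.sqrt K * K ^ m) := by
  classical
  choose! h0 u v huv using hS
  obtain ⟨T, hT⟩ : ∃ T : Finset (ℕ × ℕ), T = (Finset.Icc 1 K ×ˢ Finset.Icc 1 K).filter fun p : ℕ × ℕ => p.1 * p.2 ≤ K :=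
    ⟨_, rfl⟩
  have h1 : S.card ≤ 2 ^ m * K ^ (m - 1) * T.card := by
    refine card_le_mul_card_image_of_maps_to (f := fun h => (dimn (u h), dimn (v h))) ?_ _ ?_
    · intro h hh
      have h2 := (huv h hh).dimn_mul hij
      have h3 := dimn_le h
      have h4 : ((h (Fin.last m) : Fin (N + 1)) : ℕ) ≤ dimn (fun x => ((h x : Fin (N + 1)) : ℕ)) :=
        le_dimn (fun x => ((h x : Fin (N + 1)) : ℕ)) (Fin.last m)
      have h5 := h0 h hh
      have h6 : dimn (u h) ≠ 0 := by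
        intro h7
        rw [h7, zero_mul] at h2
        omega
      have h7 : dimn (v h) ≠ 0 := by
        intro h7
        rw [h7, mul_zero] at h2
        omega
      have h8 : dimn (u h) * dimn (v h) ≤ K := by omega
      have h9 : dimn (u h) ≤ dimn (u h) * dimn (v h) := Nat.le_mul_of_pos_right _ (Nat.pos_of_ne_zero h7)
      have h10 : dimn (v h) ≤ dimn (u h) * dimn (v h) := Nat.le_mul_of_pos_left _ (Nat.pos_of_ne_zero h6)
      rw [hT, mem_filter, mem_product, mem_Icc, mem_Icc]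
      refine ⟨⟨⟨Nat.pos_of_ne_zero h6, h9.trans h8⟩, Nat.pos_of_ne_zero h7, h10.trans h8⟩, h8⟩
    · rintro ⟨A, B⟩ hAB
      rw [hT, mem_filter, mem_product, mem_Icc, mem_Icc] at hAB
      obtain ⟨⟨⟨a1, -⟩, b1, -⟩, ab⟩ := hAB
      have a1 : 1 ≤ A := a1
      have b1 : 1 ≤ B := b1
      have ab : A * B ≤ K := ab
      refine le_trans ?_ (pow_bound a1 b1 ab hi hj hij)
      have h2 : (filter (fun a => (dimn (u a), dimn (v a)) = (A, B)) S).card ≤
          ((Fintype.piFinset fun _ : Fin i => range (A + 1)) ×ˢ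
            (Fintype.piFinset fun _ : Fin j => range (B + 1))).card := by
        refine card_le_card_of_injOn (fun h => (fun x : Fin i => u h x.succ, fun x : Fin j => v h x.succ)) ?_ ?_
        · intro h hh
          rw [mem_coe, mem_filter, Prod.mk.injEq] at hh
          obtain ⟨-, hA, hB⟩ := hh
          rw [mem_coe, mem_product, Fintype.mem_piFinset, Fintype.mem_piFinset]
          refine ⟨fun x => ?_, fun x => ?_⟩
          · rw [mem_range, Nat.lt_succ_iff, ← hA]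
            exact le_dimn _ _
          · rw [mem_range, Nat.lt_succ_iff, ← hB]
            exact le_dimn _ _
        · intro h hh h' hh' he
          rw [mem_coe, mem_filter, Prod.mk.injEq] at hh hh'
          obtain ⟨s1, hA, hB⟩ := hh
          obtain ⟨s2, hA', hB'⟩ := hh'
          simp only [Prod.mk.injEq] at he
          have e1 : u h = u h' := eq_of_tail (hA.trans hA'.symm) fun x => congrFun he.1 x
          have e2 : v h = v h' := eq_of_tail (hB.trans hB'.symm) fun x => congrFun he.2 x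
          have c1 := huv h s1
          have c2 := huv h' s2
          rw [← e1, ← e2] at c2
          have e3 := c1.ext c2
          funext x
          exact Fin.ext (congrFun e3 x)
      rw [card_product, Fintype.card_piFinset_const, Fintype.card_piFinset_const, card_range, card_range] at h2
      exact h2
  have h2 : T.card ≤ 2 * (Nat.sqrt K * K) := by
    rw [hT]
    exact card_pairs K
  refine h1.trans ((Nat.mul_le_mul_left _ h2).trans (le_of_eq ?_))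
  obtain ⟨e, rfl⟩ := Nat.exists_eq_add_of_le' (show 1 ≤ m by omega)
  rw [Nat.add_sub_cancel]
  ring

/-- The good vectors of Hodge numbers. -/
def Good (C m : ℕ) (h : Fin (m + 1) → ℕ) : Prop :=
  NI.Indec (2 * m) (hv m h) ∧ C * Nat.gcd (dimn h) (tr2 h) ^ 4 ≤ dimn h ∧
    ¬IsSquare (dimn h + 1) ∧ ¬IsSquare (8 * dimn h + 1)

theorem not_good {C m G N : ℕ} {h : Fin (m + 1 + 1) → Fin (N + 1)} (hb : ¬ Good C (m + 1) (fun j => (h j : ℕ))) :
    ((h (Fin.last (m + 1)) : Fin (N + 1)) : ℕ) = 0 ∨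
    ∑ p ∈ Icc (0 : ℤ) (2 * (m + 1 : ℕ)), ((-1 : ℤˣ) ^ p : ℤˣ) * (hv (m + 1) (fun j => (h j : ℕ)) p : ℤ) = 0 ∨
    (∃ i ∈ range m, ((h (Fin.last (m + 1)) : Fin (N + 1)) : ℕ) ≠ 0 ∧
      ∃ (u : Fin (i + 1 + 1) → ℕ) (v : Fin (m - i + 1) → ℕ), Conv (m + 1) (i + 1) (m - i) (fun x => (h x : ℕ)) u v) ∨
    IsSquare (dimn (fun j => (h j : ℕ)) + 1) ∨ IsSquare (8 * dimn (fun j => (h j : ℕ)) + 1) ∨
    dimn (fun j => (h j : ℕ)) < C * G ^ 4 ∨
    ∃ d ∈ Ioc G ((2 * m + 3) * (N + 1)), d ∣ dimn (fun j => (h j : ℕ)) ∧ d ∣ tr2 (fun j => (h j : ℕ)) := by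
  by_cases h0 : ((h (Fin.last (m + 1)) : Fin (N + 1)) : ℕ) = 0
  · exact Or.inl h0
  refine Or.inr ?_
  by_cases hI : NI.Indec (2 * (m + 1 : ℕ)) (hv (m + 1) (fun j => (h j : ℕ)))
  · by_cases h1 : IsSquare (dimn (fun j => (h j : ℕ)) + 1)
    · exact Or.inr (Or.inr (Or.inl h1))
    by_cases h2 : IsSquare (8 * dimn (fun j => (h j : ℕ)) + 1)
    · exact Or.inr (Or.inr (Or.inr (Or.inl h2)))
    have h3 : ¬ (C * Nat.gcd (dimn (fun j => (h j : ℕ))) (tr2 (fun j => (h j : ℕ))) ^ 4 ≤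
        dimn (fun j => (h j : ℕ))) := fun h3 => hb ⟨hI, h3, h1, h2⟩
    push Not at h3
    have h4 : ((h (Fin.last (m + 1)) : Fin (N + 1)) : ℕ) ≤ dimn (fun j => (h j : ℕ)) :=
      le_dimn (fun j => (h j : ℕ)) (Fin.last (m + 1))
    have h5 := dimn_le h
    have h6 : (2 * (m + 1) + 1) * N ≤ (2 * m + 3) * (N + 1) := by nlinarith
    by_cases h7 : Nat.gcd (dimn (fun j => (h j : ℕ))) (tr2 (fun j => (h j : ℕ))) ≤ G
    · refine Or.inr (Or.inr (Or.inr (Or.inr (Or.inl (lt_of_lt_of_le h3 ?_)))))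
      exact Nat.mul_le_mul_left _ (Nat.pow_le_pow_left h7 4)
    · refine Or.inr (Or.inr (Or.inr (Or.inr (Or.inr ⟨_, ?_, Nat.gcd_dvd_left _ _, Nat.gcd_dvd_right _ _⟩))))
      rw [mem_Ioc]
      refine ⟨by omega, le_trans (Nat.gcd_le_left _ (by omega)) (by omega)⟩
  · rcases dec_cases hI with h1 | h1 | ⟨i, j, hi, hj, hij, u, v, huv⟩
    · exact absurd h1 h0
    · exact Or.inl h1
    · refine Or.inr (Or.inl ?_)
      obtain ⟨e, rfl⟩ := Nat.exists_eq_add_of_le' hi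
      obtain rfl : j = m - e := by omega
      exact ⟨e, mem_range.2 (by omega), h0, u, v, huv⟩

theorem nsqrt_le {c N : ℕ} (hc : 1 ≤ c) : (Nat.sqrt (c * (N + 1)) : ℝ) ≤ c * √((N : ℝ) + 1) := by
  refine Real.nat_sqrt_le_real_sqrt.trans ?_
  rw [Real.sqrt_le_left (by positivity), mul_pow, Real.sq_sqrt (by positivity)]
  have h1 : (1 : ℝ) ≤ c := by exact_mod_cast hc
  have h2 : (0 : ℝ) ≤ (N : ℝ) + 1 := by positivity
  push_cast
  nlinarith [mul_nonneg (mul_nonneg (by linarith : (0 : ℝ) ≤ c) (by linarith : (0 : ℝ) ≤ (c : ℝ) - 1)) h2]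

theorem sum_dd {G D N : ℕ} (hG : 0 < G) :
    ∑ d ∈ Ioc G D, (((8 * N / d + 1) * (N / d + 1) : ℕ) : ℝ) ≤ 18 * (N : ℝ) ^ 2 / G + 18 * D := by
  rcases Nat.lt_or_ge D G with h | h
  · rw [Ioc_eq_empty (by omega), sum_empty]
    positivity
  have h1 : ∀ d ∈ Ioc G D, (((8 * N / d + 1) * (N / d + 1) : ℕ) : ℝ) ≤ 18 * (N : ℝ) ^ 2 * (((d : ℝ) ^ 2)⁻¹) + 18 := by
    intro d hd
    have hd1 : 0 < d := by
      rw [mem_Ioc] at hd
      omega
    have hd0 : (0 : ℝ) < d := by exact_mod_cast hd1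
    have h2 : ((8 * N / d : ℕ) : ℝ) ≤ 8 * ((N : ℝ) / d) := by
      refine Nat.cast_div_le.trans (le_of_eq ?_)
      push_cast
      ring
    have h3 : ((N / d : ℕ) : ℝ) ≤ (N : ℝ) / d := Nat.cast_div_le
    have h4 : (0 : ℝ) ≤ (N : ℝ) / d := by positivity
    have h5 : ((N : ℝ) / d) ^ 2 = (N : ℝ) ^ 2 * (((d : ℝ) ^ 2)⁻¹) := by
      rw [div_pow, div_eq_mul_inv]
    push_cast
    calc (((8 * N / d : ℕ) : ℝ) + 1) * (((N / d : ℕ) : ℝ) + 1) ≤ (8 * ((N : ℝ) / d) + 1) * ((N : ℝ) / d + 1) := by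
          refine mul_le_mul (by linarith) (by linarith) (by positivity) (by positivity)
      _ ≤ 18 * ((N : ℝ) / d) ^ 2 + 18 := by nlinarith [sq_nonneg ((N : ℝ) / d - 1)]
      _ = 18 * (N : ℝ) ^ 2 * (((d : ℝ) ^ 2)⁻¹) + 18 := by
        rw [h5]
        ring
  refine (sum_le_sum h1).trans ?_
  rw [sum_add_distrib, ← mul_sum, sum_const, Nat.card_Ioc, nsmul_eq_mul]
  have h2 : ∑ i ∈ Ioc G D, ((i : ℝ) ^ 2)⁻¹ ≤ (G : ℝ)⁻¹ - (D : ℝ)⁻¹ := sum_Ioc_inv_sq_le_sub (by omega) h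
  have h3 : ∑ i ∈ Ioc G D, ((i : ℝ) ^ 2)⁻¹ ≤ (G : ℝ)⁻¹ := h2.trans (by
    have : (0 : ℝ) ≤ (D : ℝ)⁻¹ := by positivity
    linarith)
  have h4 : 18 * (N : ℝ) ^ 2 * ∑ i ∈ Ioc G D, ((i : ℝ) ^ 2)⁻¹ ≤ 18 * (N : ℝ) ^ 2 / G := by
    rw [div_eq_mul_inv]
    exact mul_le_mul_of_nonneg_left h3 (by positivity)
  have h5 : ((D - G : ℕ) : ℝ) ≤ D := by exact_mod_cast Nat.sub_le D G
  linarith

theorem card_bad {C m G N : ℕ} (hG : 0 < G) [DecidablePred fun h : Fin (m + 1 + 1) → Fin (N + 1) =>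
      ¬ Good C (m + 1) (fun j => (h j : ℕ))] :
    ((univ.filter fun h : Fin (m + 1 + 1) → Fin (N + 1) => ¬ Good C (m + 1) (fun j => (h j : ℕ))).card : ℝ) ≤
      (13 + m * (2 ^ (m + 2) * (2 * m + 3) ^ (m + 2)) + C * G ^ 4 + 18 * (2 * m + 3) : ℝ) *
        (((N : ℝ) + 1) ^ (m + 1) * √((N : ℝ) + 1)) + 18 / G * ((N : ℝ) + 1) ^ (m + 2) := by
  classical
  obtain ⟨D, hD⟩ : ∃ D : ℕ, D = (2 * m + 3) * (N + 1) := ⟨_, rfl⟩
  obtain ⟨F1, hF1⟩ : ∃ F : Finset (Fin (m + 1 + 1) → Fin (N + 1)), F =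
      univ.filter fun h : Fin (m + 1 + 1) → Fin (N + 1) => ((h (Fin.last (m + 1)) : Fin (N + 1)) : ℕ) = 0 := ⟨_, rfl⟩
  obtain ⟨F2, hF2⟩ : ∃ F : Finset (Fin (m + 1 + 1) → Fin (N + 1)), F =
      univ.filter fun h : Fin (m + 1 + 1) → Fin (N + 1) =>
        ∑ p ∈ Icc (0 : ℤ) (2 * (m + 1 : ℕ)), ((-1 : ℤˣ) ^ p : ℤˣ) * (hv (m + 1) (fun j => (h j : ℕ)) p : ℤ) = 0 :=
    ⟨_, rfl⟩
  obtain ⟨F3, hF3⟩ : ∃ F : ℕ → Finset (Fin (m + 1 + 1) → Fin (N + 1)), F = fun i =>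
      univ.filter fun h : Fin (m + 1 + 1) → Fin (N + 1) => ((h (Fin.last (m + 1)) : Fin (N + 1)) : ℕ) ≠ 0 ∧
        ∃ (u : Fin (i + 1 + 1) → ℕ) (v : Fin (m - i + 1) → ℕ), Conv (m + 1) (i + 1) (m - i) (fun x => (h x : ℕ)) u v :=
    ⟨_, rfl⟩
  obtain ⟨F4, hF4⟩ : ∃ F : Finset (Fin (m + 1 + 1) → Fin (N + 1)), F =
      univ.filter fun h : Fin (m + 1 + 1) → Fin (N + 1) => IsSquare (dimn (fun j => (h j : ℕ)) + 1) := ⟨_, rfl⟩
  obtain ⟨F5, hF5⟩ : ∃ F : Finset (Fin (m + 1 + 1) → Fin (N + 1)), F =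
      univ.filter fun h : Fin (m + 1 + 1) → Fin (N + 1) => IsSquare (8 * dimn (fun j => (h j : ℕ)) + 1) := ⟨_, rfl⟩
  obtain ⟨F6, hF6⟩ : ∃ F : Finset (Fin (m + 1 + 1) → Fin (N + 1)), F =
      univ.filter fun h : Fin (m + 1 + 1) → Fin (N + 1) => dimn (fun j => (h j : ℕ)) < C * G ^ 4 := ⟨_, rfl⟩
  obtain ⟨F7, hF7⟩ : ∃ F : ℕ → Finset (Fin (m + 1 + 1) → Fin (N + 1)), F = fun d =>
      univ.filter fun h : Fin (m + 1 + 1) → Fin (N + 1) =>
        d ∣ dimn (fun j => (h j : ℕ)) ∧ d ∣ tr2 (fun j => (h j : ℕ)) := ⟨_, rfl⟩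
  have hsub : (univ.filter fun h : Fin (m + 1 + 1) → Fin (N + 1) => ¬ Good C (m + 1) (fun j => (h j : ℕ))) ⊆
      F1 ∪ (F2 ∪ ((range m).biUnion F3 ∪ (F4 ∪ (F5 ∪ (F6 ∪ (Ioc G D).biUnion F7))))) := by
    intro h hh
    have h1 := not_good (G := G) (mem_filter.1 hh).2
    simp only [mem_union, mem_biUnion, hF1, hF2, hF3, hF4, hF5, hF6, hF7, mem_filter, mem_univ, true_and, hD]
    exact h1
  have c1 : F1.card ≤ (N + 1) ^ (m + 1) * 1 := by
    rw [hF1]
    exact card_last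
  have c2 : F2.card ≤ (N + 1) ^ (m + 1) * 1 := by
    rw [hF2]
    exact card_alt
  have c3 : ((range m).biUnion F3).card ≤ m * (2 ^ (m + 2) * (Nat.sqrt D * D ^ (m + 1))) := by
    have h1 := card_biUnion_le_card_mul (range m) F3 (2 ^ (m + 2) * (Nat.sqrt D * D ^ (m + 1))) ?_
    · rw [card_range] at h1
      exact h1
    · intro i hi
      rw [mem_range] at hi
      refine card_conv (i := i + 1) (j := m - i) (by omega) (by omega) (by omega) ?_ _ fun h hh => ?_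
      · rw [hD]
        nlinarith
      · rw [hF3] at hh
        exact (mem_filter.1 hh).2
  have c4 : F4.card ≤ (N + 1) ^ (m + 1) * (Nat.sqrt N + 1) := by
    rw [hF4]
    exact card_sq1
  have c5 : F5.card ≤ (N + 1) ^ (m + 1) * (Nat.sqrt (8 * N) + 1) := by
    rw [hF5]
    exact card_sq8
  have c6 : F6.card ≤ (N + 1) ^ (m + 1) * (C * G ^ 4) := by
    rw [hF6]
    exact card_small _
  have c7 : ((Ioc G D).biUnion F7).card ≤ (N + 1) ^ m * ∑ d ∈ Ioc G D, ((8 * N / d + 1) * (N / d + 1)) := by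
    refine card_biUnion_le.trans ?_
    rw [mul_sum]
    refine sum_le_sum fun d hd => ?_
    rw [hF7, ← mul_assoc]
    exact card_dd (by
      rw [mem_Ioc] at hd
      omega)
  have hall := (card_le_card hsub).trans ((card_union_le _ _).trans (Nat.add_le_add_left
    ((card_union_le _ _).trans (Nat.add_le_add_left ((card_union_le _ _).trans (Nat.add_le_add_left
    ((card_union_le _ _).trans (Nat.add_le_add_left ((card_union_le _ _).trans (Nat.add_le_add_left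
    (card_union_le _ _) _)) _)) _)) _)) _))
  obtain ⟨M, hM⟩ : ∃ M : ℝ, M = (N : ℝ) + 1 := ⟨_, rfl⟩
  obtain ⟨s, hs⟩ : ∃ s : ℝ, s = √((N : ℝ) + 1) := ⟨_, rfl⟩
  have hN0 : (0 : ℝ) ≤ N := Nat.cast_nonneg N
  have hM1 : 1 ≤ M := by linarith
  have hs1 : 1 ≤ s := by
    rw [hs, Real.one_le_sqrt]
    linarith
  have hP : 1 ≤ M ^ (m + 1) := one_le_pow₀ hM1
  have r1 : (F1.card : ℝ) ≤ 1 * (M ^ (m + 1) * s) := by
    have h1 : (F1.card : ℝ) ≤ (((N + 1) ^ (m + 1) * 1 : ℕ) : ℝ) := by exact_mod_cast c1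
    push_cast at h1
    rw [← hM] at h1
    nlinarith
  have r2 : (F2.card : ℝ) ≤ 1 * (M ^ (m + 1) * s) := by
    have h1 : (F2.card : ℝ) ≤ (((N + 1) ^ (m + 1) * 1 : ℕ) : ℝ) := by exact_mod_cast c2
    push_cast at h1
    rw [← hM] at h1
    nlinarith
  have q1 : (Nat.sqrt N : ℝ) ≤ s := by
    have h1 : (Nat.sqrt N : ℝ) ≤ (Nat.sqrt (1 * (N + 1)) : ℝ) := by
      exact_mod_cast Nat.sqrt_le_sqrt (by omega)
    have h2 := nsqrt_le (c := 1) (N := N) le_rfl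
    rw [hs]
    push_cast at h2
    linarith
  have q8 : (Nat.sqrt (8 * N) : ℝ) ≤ 8 * s := by
    have h1 : (Nat.sqrt (8 * N) : ℝ) ≤ (Nat.sqrt (8 * (N + 1)) : ℝ) := by
      exact_mod_cast Nat.sqrt_le_sqrt (by omega)
    have h2 := nsqrt_le (c := 8) (N := N) (by norm_num)
    rw [hs]
    push_cast at h2
    linarith
  have qD : (Nat.sqrt D : ℝ) ≤ (2 * m + 3) * s := by
    have h2 := nsqrt_le (c := 2 * m + 3) (N := N) (by omega)
    rw [hD, hs]
    push_cast at h2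
    exact h2
  have r3 : ((((range m).biUnion F3).card : ℕ) : ℝ) ≤
      (m * (2 ^ (m + 2) * (2 * m + 3) ^ (m + 2)) : ℝ) * (M ^ (m + 1) * s) := by
    have h1 : ((((range m).biUnion F3).card : ℕ) : ℝ) ≤ ((m * (2 ^ (m + 2) * (Nat.sqrt D * D ^ (m + 1))) : ℕ) : ℝ) := by
      exact_mod_cast c3
    refine h1.trans ?_
    have h2 : (D : ℝ) = (2 * m + 3) * M := by
      rw [hD, hM]
      push_cast
      ring
    push_cast
    rw [h2, mul_pow]
    have h3 : (m * (2 ^ (m + 2) * (2 * m + 3) ^ (m + 2)) : ℝ) * (M ^ (m + 1) * s) =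
        m * (2 ^ (m + 2) * ((2 * m + 3) * s * ((2 * m + 3) ^ (m + 1) * M ^ (m + 1)))) := by
      rw [pow_succ (2 * (m : ℝ) + 3) (m + 1)]
      ring
    rw [h3]
    gcongr
  have r4 : (F4.card : ℝ) ≤ 2 * (M ^ (m + 1) * s) := by
    have h1 : (F4.card : ℝ) ≤ (((N + 1) ^ (m + 1) * (Nat.sqrt N + 1) : ℕ) : ℝ) := by exact_mod_cast c4
    push_cast at h1
    rw [← hM] at h1
    have h2 : M ^ (m + 1) * ((Nat.sqrt N : ℝ) + 1) ≤ M ^ (m + 1) * (2 * s) :=
      mul_le_mul_of_nonneg_left (by linarith) (by linarith)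
    linarith
  have r5 : (F5.card : ℝ) ≤ 9 * (M ^ (m + 1) * s) := by
    have h1 : (F5.card : ℝ) ≤ (((N + 1) ^ (m + 1) * (Nat.sqrt (8 * N) + 1) : ℕ) : ℝ) := by exact_mod_cast c5
    push_cast at h1
    rw [← hM] at h1
    have h2 : M ^ (m + 1) * ((Nat.sqrt (8 * N) : ℝ) + 1) ≤ M ^ (m + 1) * (9 * s) :=
      mul_le_mul_of_nonneg_left (by linarith) (by linarith)
    linarith
  have r6 : (F6.card : ℝ) ≤ (C * G ^ 4) * (M ^ (m + 1) * s) := by
    have h1 : (F6.card : ℝ) ≤ (((N + 1) ^ (m + 1) * (C * G ^ 4) : ℕ) : ℝ) := by exact_mod_cast c6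
    push_cast at h1
    rw [← hM] at h1
    have h2 : (0 : ℝ) ≤ C * G ^ 4 := by positivity
    have h3 : M ^ (m + 1) * (C * G ^ 4 : ℝ) ≤ (C * G ^ 4) * (M ^ (m + 1) * s) := by
      have h4 : (C * G ^ 4 : ℝ) * (M ^ (m + 1) * 1) ≤ (C * G ^ 4) * (M ^ (m + 1) * s) := by
        refine mul_le_mul_of_nonneg_left (mul_le_mul_of_nonneg_left hs1 (by linarith)) h2
      linarith
    linarith
  have r7 : ((((Ioc G D).biUnion F7).card : ℕ) : ℝ) ≤
      18 / G * M ^ (m + 2) + 18 * (2 * m + 3) * (M ^ (m + 1) * s) := by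
    have h1 : ((((Ioc G D).biUnion F7).card : ℕ) : ℝ) ≤
        (((N + 1) ^ m * ∑ d ∈ Ioc G D, ((8 * N / d + 1) * (N / d + 1)) : ℕ) : ℝ) := by
      exact_mod_cast c7
    have h2 := sum_dd (D := D) (N := N) hG
    rw [Nat.cast_mul, Nat.cast_sum] at h1
    have h3 : ((((N + 1) ^ m : ℕ)) : ℝ) = M ^ m := by
      rw [hM]
      push_cast
      rfl
    rw [h3] at h1
    have h4 : (D : ℝ) = (2 * m + 3) * M := by
      rw [hD, hM]
      push_cast
      ring
    rw [h4] at h2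
    have hG0 : (0 : ℝ) < G := by exact_mod_cast hG
    have h5 : 18 * (N : ℝ) ^ 2 / G ≤ 18 * M ^ 2 / G := by
      have h6 : (N : ℝ) ^ 2 ≤ M ^ 2 := by
        rw [hM]
        gcongr
        linarith
      gcongr
    have h7 : M ^ m * (18 * M ^ 2 / G + 18 * ((2 * m + 3) * M)) =
        18 / G * M ^ (m + 2) + 18 * (2 * m + 3) * (M ^ (m + 1) * 1) := by
      ring
    have h8 : 18 * (2 * m + 3 : ℝ) * (M ^ (m + 1) * 1) ≤ 18 * (2 * m + 3) * (M ^ (m + 1) * s) := by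
      gcongr
    have h9 : M ^ m * ∑ d ∈ Ioc G D, (((8 * N / d + 1) * (N / d + 1) : ℕ) : ℝ) ≤
        M ^ m * (18 * M ^ 2 / G + 18 * ((2 * m + 3) * M)) := by
      refine mul_le_mul_of_nonneg_left (by linarith) (by positivity)
    linarith
  have hall' : ((univ.filter fun h : Fin (m + 1 + 1) → Fin (N + 1) => ¬ Good C (m + 1) (fun j => (h j : ℕ))).card : ℝ) ≤
      (F1.card : ℝ) + (F2.card + (((range m).biUnion F3).card + (F4.card + (F5.card + (F6.card +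
        ((Ioc G D).biUnion F7).card))))) := by
    exact_mod_cast hall
  rw [← hs, ← hM]
  refine hall'.trans ?_
  have e1 : (13 + m * (2 ^ (m + 2) * (2 * m + 3) ^ (m + 2)) + C * G ^ 4 + 18 * (2 * m + 3) : ℝ) *
        (M ^ (m + 1) * s) + 18 / G * M ^ (m + 2) =
      1 * (M ^ (m + 1) * s) + (1 * (M ^ (m + 1) * s) + ((m * (2 ^ (m + 2) * (2 * m + 3) ^ (m + 2)) : ℝ) *
        (M ^ (m + 1) * s) + (2 * (M ^ (m + 1) * s) + (9 * (M ^ (m + 1) * s) + ((C * G ^ 4) * (M ^ (m + 1) * s) +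
        (18 / G * M ^ (m + 2) + 18 * (2 * m + 3) * (M ^ (m + 1) * s))))))) := by
    ring
  rw [e1]
  linarith

/-- Almost all vectors of Hodge numbers are good. -/
theorem density (m : ℕ) (hm : 1 ≤ m) (C : ℕ) :
    Filter.Tendsto (fun N : ℕ => (Nat.card {h : Fin (m + 1) → Fin (N + 1) // Good C m (fun j => (h j : ℕ))} : ℝ) /
      ((N : ℝ) + 1) ^ (m + 1)) Filter.atTop (nhds 1) := by
  classical
  obtain ⟨m, rfl⟩ := Nat.exists_eq_add_of_le' hm
  rw [Metric.tendsto_atTop]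
  intro ε hε
  obtain ⟨G, hG⟩ := exists_nat_gt (36 / ε)
  have hG0 : (0 : ℝ) < G := lt_of_le_of_lt (by positivity) hG
  have hG1 : 0 < G := by exact_mod_cast hG0
  obtain ⟨A, hA⟩ : ∃ A : ℝ, A =
      (13 + m * (2 ^ (m + 2) * (2 * m + 3) ^ (m + 2)) + C * G ^ 4 + 18 * (2 * m + 3) : ℝ) := ⟨_, rfl⟩
  have hlim : Filter.Tendsto (fun N : ℕ => A / √((N : ℝ) + 1)) Filter.atTop (nhds 0) := by
    refine Filter.Tendsto.div_atTop tendsto_const_nhds ?_
    exact Real.tendsto_sqrt_atTop.comp (Filter.tendsto_atTop_add_const_right _ _ tendsto_natCast_atTop_atTop)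
  rw [Metric.tendsto_atTop] at hlim
  obtain ⟨N0, hN0⟩ := hlim (ε / 2) (by positivity)
  refine ⟨N0, fun N hN => ?_⟩
  have h1 := hN0 N hN
  rw [Real.dist_eq, sub_zero] at h1
  have h1' := lt_of_abs_lt h1
  have h2 : Nat.card {h : Fin (m + 1 + 1) → Fin (N + 1) // Good C (m + 1) (fun j => (h j : ℕ))} =
      (univ.filter fun h : Fin (m + 1 + 1) → Fin (N + 1) => Good C (m + 1) (fun j => (h j : ℕ))).card := by
    rw [Nat.card_eq_fintype_card, Fintype.card_subtype]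
  have h3 := Finset.card_filter_add_card_filter_not (s := (univ : Finset (Fin (m + 1 + 1) → Fin (N + 1))))
    (fun h : Fin (m + 1 + 1) → Fin (N + 1) => Good C (m + 1) (fun j => (h j : ℕ)))
  rw [Finset.card_univ, Fintype.card_fun, Fintype.card_fin, Fintype.card_fin] at h3
  have h4 := card_bad (C := C) (m := m) (N := N) hG1
  rw [← hA] at h4
  obtain ⟨M, hM⟩ : ∃ M : ℝ, M = (N : ℝ) + 1 := ⟨_, rfl⟩
  have hM1 : 1 ≤ M := by
    have : (0 : ℝ) ≤ N := Nat.cast_nonneg N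
    linarith
  have hM0 : 0 < M := by linarith
  obtain ⟨g, hg⟩ : ∃ g : ℝ, g =
      ((univ.filter fun h : Fin (m + 1 + 1) → Fin (N + 1) => Good C (m + 1) (fun j => (h j : ℕ))).card : ℝ) := ⟨_, rfl⟩
  obtain ⟨b, hb⟩ : ∃ b : ℝ, b =
      ((univ.filter fun h : Fin (m + 1 + 1) → Fin (N + 1) => ¬ Good C (m + 1) (fun j => (h j : ℕ))).card : ℝ) :=
    ⟨_, rfl⟩
  have h5 : g + b = M ^ (m + 1 + 1) := by
    rw [hg, hb, hM]
    exact_mod_cast h3
  rw [← hb, ← hM] at h4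
  rw [h2, ← hg, ← hM, Real.dist_eq]
  have hP : 0 < M ^ (m + 1 + 1) := by positivity
  have h6 : g / M ^ (m + 1 + 1) - 1 = -(b / M ^ (m + 1 + 1)) := by
    field_simp
    linarith
  have hb0 : 0 ≤ b := by
    rw [hb]
    positivity
  rw [h6, abs_neg, abs_of_nonneg (by positivity)]
  have h7 : b / M ^ (m + 1 + 1) ≤ A / √M + 18 / G := by
    rw [div_le_iff₀ hP]
    refine h4.trans (le_of_eq ?_)
    have h8 : √M ≠ 0 := (Real.sqrt_pos.2 hM0).ne'
    have h9 : √M * √M = M := Real.mul_self_sqrt hM0.le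
    have h10 : M ^ (m + 1 + 1) = M ^ (m + 1) * (√M * √M) := by
      rw [h9]
      ring
    rw [show m + 2 = m + 1 + 1 from rfl, h10]
    field_simp
  have h8 : 18 / (G : ℝ) < ε / 2 := by
    rw [div_lt_iff₀ hε] at hG
    rw [div_lt_iff₀ hG0]
    linarith
  rw [← hM] at h1'
  linarith

end TF
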