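import Pool.Agent.Helper3.TF.Dens

/-!
Project TF (MP_b8862a_ag), density in all weights: the vectors of Hodge numbers.
-/

open Finset

namespace TF

/-- The Hodge numbers of weight `w` given by the numbers `h 0, …, h m` (with `m` the integral part of `w / 2`):
`hod w h p = h (min p (w - p))` for `0 ≤ p ≤ w`, and zero otherwise. -/
def hod (w : ℕ) {m : ℕ} (h : Fin (m + 1) → ℕ) (p : ℤ) : ℕ :=
  if hp : 0 ≤ min p (w - p) ∧ (min p (w - p)).toNat < m + 1 then h ⟨(min p (w - p)).toNat, hp.2⟩ else 0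

theorem hod_symm {w m : ℕ} (h : Fin (m + 1) → ℕ) (p : ℤ) : hod w h (w - p) = hod w h p := by
  have h1 : min ((w : ℤ) - p) (w - (w - p)) = min p (w - p) := by
    rw [sub_sub_cancel, min_comm]
  unfold hod
  simp only [h1]

theorem hod_left {w m : ℕ} {h : Fin (m + 1) → ℕ} {p : ℤ} {j : Fin (m + 1)} (h1 : p = (j : ℕ)) (h2 : p ≤ w - p) :
    hod w h p = h j := by
  have h3 : min p ((w : ℤ) - p) = (j : ℕ) := by rw [min_eq_left h2, h1]
  have h4 : 0 ≤ min p ((w : ℤ) - p) ∧ (min p ((w : ℤ) - p)).toNat < m + 1 := by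
    rw [h3, Int.toNat_natCast]
    exact ⟨Int.natCast_nonneg _, j.2⟩
  unfold hod
  rw [dif_pos h4]
  congr 1
  apply Fin.ext
  show (min p ((w : ℤ) - p)).toNat = (j : ℕ)
  rw [h3, Int.toNat_natCast]

theorem hod_right {w m : ℕ} {h : Fin (m + 1) → ℕ} {p : ℤ} {j : Fin (m + 1)} (h1 : w - p = (j : ℕ)) (h2 : w - p ≤ p) :
    hod w h p = h j := by
  rw [← hod_symm]
  exact hod_left h1 (by omega)

theorem hod_out {w m : ℕ} {h : Fin (m + 1) → ℕ} {p : ℤ} (h1 : p < 0 ∨ w < p) : hod w h p = 0 := by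
  unfold hod
  rw [dif_neg]
  rintro ⟨h2, -⟩
  rw [le_min_iff] at h2
  omega

theorem hod_even {m : ℕ} (h : Fin (m + 1) → ℕ) : hod (2 * m) h = hv m (fun j => h (Fin.rev j)) := by
  funext p
  by_cases h1 : 0 ≤ p ∧ p ≤ 2 * m
  · have h2 : (p - (m : ℤ)).natAbs < m + 1 := by omega
    unfold hv
    rw [sym_of_lt h2]
    rcases le_total p (2 * (m : ℤ) - p) with h3 | h3
    · refine hod_left ?_ (by push_cast; exact h3)
      rw [Fin.val_rev]
      simp only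
      omega
    · refine hod_right ?_ (by push_cast; exact h3)
      rw [Fin.val_rev]
      simp only
      push_cast
      omega
  · rw [hod_out (by push_cast; omega)]
    unfold hv
    rw [sym_of_ge (by omega)]

theorem sum_left {R : Type*} [CommSemiring R] {w m : ℕ} (h : Fin (m + 1) → ℕ) (hw : 2 * m ≤ w) (F : ℤ → R) :
    ∑ p ∈ Icc (0 : ℤ) m, F p * (hod w h p : R) = ∑ j : Fin (m + 1), F (j : ℕ) * (h j : R) := by
  have h1 : Icc (0 : ℤ) m = univ.image (fun j : Fin (m + 1) => ((j : ℕ) : ℤ)) := by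
    ext x
    simp only [mem_Icc, mem_image, mem_univ, true_and]
    constructor
    · rintro ⟨a, b⟩
      exact ⟨⟨x.toNat, by omega⟩, by simpa using a⟩
    · rintro ⟨j, rfl⟩
      have := j.2
      omega
  rw [h1, sum_image]
  · refine sum_congr rfl fun j _ => ?_
    have h2 := j.2
    rw [hod_left (w := w) (h := h) (j := j) rfl (by omega)]
  · intro x _ y _ hxy
    have h3 : ((x : ℕ) : ℤ) = ((y : ℕ) : ℤ) := hxy
    exact Fin.ext (by exact_mod_cast h3)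

theorem sum_right {R : Type*} [CommSemiring R] {w m : ℕ} (h : Fin (m + 1) → ℕ) (hw : 2 * m ≤ w) (F : ℤ → R) :
    ∑ p ∈ Icc ((w : ℤ) - m) w, F p * (hod w h p : R) = ∑ j : Fin (m + 1), F (w - (j : ℕ)) * (h j : R) := by
  rw [← sum_left h hw (fun p => F (w - p))]
  refine sum_nbij' (fun p => w - p) (fun p => w - p) ?_ ?_ ?_ ?_ ?_
  · intro p hp
    rw [mem_Icc] at hp ⊢
    omega
  · intro p hp
    rw [mem_Icc] at hp ⊢
    omega
  · intro p _
    ring
  · intro p _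
    ring
  · intro p _
    rw [sub_sub_cancel, hod_symm]

theorem sum_odd {R : Type*} [CommSemiring R] {m : ℕ} (h : Fin (m + 1) → ℕ) (F : ℤ → R) :
    ∑ p ∈ Icc (0 : ℤ) (2 * m + 1 : ℕ), F p * (hod (2 * m + 1) h p : R) =
      ∑ j : Fin (m + 1), (F (j : ℕ) + F ((2 * m + 1 : ℕ) - (j : ℕ))) * (h j : R) := by
  have h1 : Icc (0 : ℤ) (2 * m + 1 : ℕ) = Icc (0 : ℤ) m ∪ Icc (((2 * m + 1 : ℕ) : ℤ) - m) (2 * m + 1 : ℕ) := by
    ext x
    simp only [mem_Icc, mem_union]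
    push_cast
    omega
  have h2 : Disjoint (Icc (0 : ℤ) m) (Icc (((2 * m + 1 : ℕ) : ℤ) - m) (2 * m + 1 : ℕ)) := by
    rw [disjoint_left]
    intro x hx hx2
    rw [mem_Icc] at hx hx2
    push_cast at hx2
    omega
  rw [h1, sum_union h2, sum_left h (by omega), sum_right h (by omega), ← sum_add_distrib]
  refine sum_congr rfl fun j _ => ?_
  rw [add_mul]

/-- the dimension in odd weight, in terms of the distances from the middle -/
def dimo {m : ℕ} (g : Fin (m + 1) → ℕ) : ℕ := 2 * g 0 + 2 * ∑ j : Fin m, g j.succ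

/-- `∑ (2 p - w) ^ 2 h_p` in odd weight, in terms of the distances from the middle -/
def tro {m : ℕ} (g : Fin (m + 1) → ℕ) : ℕ := dimo g + 8 * ∑ j : Fin m, (((j : ℕ) + 1) * ((j : ℕ) + 2)) * g j.succ

/-- The dimension. -/
noncomputable def dm (w : ℕ) (r : ℤ → ℕ) : ℕ := ∑ p ∈ Icc (0 : ℤ) w, r p

/-- The sum of the squares of the numbers `2 p - w` with the multiplicities `r p`. -/
noncomputable def tr (w : ℕ) (r : ℤ → ℕ) : ℕ := ∑ p ∈ Icc (0 : ℤ) w, r p * (2 * p - w).natAbs ^ 2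

theorem dm_even {m : ℕ} (h : Fin (m + 1) → ℕ) : dm (2 * m) (hod (2 * m) h) = dimn (fun j => h (Fin.rev j)) := by
  unfold dm
  rw [hod_even, ← sum_hv]
  push_cast
  rfl

theorem tr_even {m : ℕ} (h : Fin (m + 1) → ℕ) : tr (2 * m) (hod (2 * m) h) = tr2 (fun j => h (Fin.rev j)) := by
  unfold tr
  rw [hod_even]
  have h1 := sum_hv2 (fun j => h (Fin.rev j))
  have h2 : ((∑ p ∈ Icc (0 : ℤ) (2 * m : ℕ), hv m (fun j => h (Fin.rev j)) p * (2 * p - (2 * m : ℕ)).natAbs ^ 2 : ℕ) : ℤ) =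
      ∑ p ∈ Icc (0 : ℤ) (2 * m), (2 * p - 2 * (m : ℤ)) ^ 2 * (hv m (fun j => h (Fin.rev j)) p : ℤ) := by
    push_cast
    refine sum_congr rfl fun p _ => ?_
    rw [sq_abs, mul_comm]
  rw [h1] at h2
  exact_mod_cast h2

theorem dm_odd {m : ℕ} (h : Fin (m + 1) → ℕ) : dm (2 * m + 1) (hod (2 * m + 1) h) = dimo (fun j => h (Fin.rev j)) := by
  have h1 := sum_odd (R := ℕ) h (fun _ => 1)
  simp only [one_mul, Nat.cast_id] at h1
  unfold dm
  rw [h1, ← Equiv.sum_comp Fin.revPerm, Fin.sum_univ_succ, dimo, mul_sum]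
  simp only [Fin.revPerm_apply, one_add_one_eq_two]

theorem tr_odd {m : ℕ} (h : Fin (m + 1) → ℕ) : tr (2 * m + 1) (hod (2 * m + 1) h) = tro (fun j => h (Fin.rev j)) := by
  have h1 := sum_odd (R := ℕ) h (fun p => (2 * p - (2 * m + 1 : ℕ)).natAbs ^ 2)
  simp only [Nat.cast_id] at h1
  unfold tr
  have h2 : ∀ p ∈ Icc (0 : ℤ) (2 * m + 1 : ℕ), hod (2 * m + 1) h p * (2 * p - (2 * m + 1 : ℕ)).natAbs ^ 2 =
      (2 * p - (2 * m + 1 : ℕ)).natAbs ^ 2 * hod (2 * m + 1) h p := fun p _ => mul_comm _ _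
  rw [sum_congr rfl h2, h1, ← Equiv.sum_comp Fin.revPerm]
  have h3 : ∀ i : Fin (m + 1), ((2 * (((Fin.revPerm i : Fin (m + 1)) : ℕ) : ℤ) - (2 * m + 1 : ℕ)).natAbs ^ 2 +
      (2 * ((2 * m + 1 : ℕ) - (((Fin.revPerm i : Fin (m + 1)) : ℕ) : ℤ)) - (2 * m + 1 : ℕ)).natAbs ^ 2) *
        h (Fin.revPerm i) = 2 * (2 * (i : ℕ) + 1) ^ 2 * h (Fin.rev i) := by
    intro i
    have hi := i.2
    have e1 : (((Fin.revPerm i : Fin (m + 1)) : ℕ) : ℤ) = m - (i : ℕ) := by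
      rw [Fin.revPerm_apply, Fin.val_rev]
      omega
    have e2 : (2 * (((Fin.revPerm i : Fin (m + 1)) : ℕ) : ℤ) - (2 * m + 1 : ℕ)).natAbs = 2 * (i : ℕ) + 1 := by
      rw [e1]
      push_cast
      omega
    have e3 : (2 * ((2 * m + 1 : ℕ) - (((Fin.revPerm i : Fin (m + 1)) : ℕ) : ℤ)) - (2 * m + 1 : ℕ)).natAbs =
        2 * (i : ℕ) + 1 := by
      rw [e1]
      push_cast
      omega
    rw [e2, e3, Fin.revPerm_apply]
    ring
  rw [sum_congr rfl fun i _ => h3 i, Fin.sum_univ_succ]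
  unfold tro dimo
  rw [mul_sum, mul_sum, add_assoc, ← sum_add_distrib]
  congr 1
  refine sum_congr rfl fun j _ => ?_
  have h4 : ((j.succ : Fin (m + 1)) : ℕ) = (j : ℕ) + 1 := Fin.val_succ j
  rw [h4]
  ring

end TF
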