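import Pool.Agent.Helper3.TF.Hod

/-!
Project TF (MP_b8862a_ag), density in odd weight: decomposable vectors.
-/

open Finset

namespace TF

/-- a decomposition of the numbers `hod w h` -/
def Cv (w a b : ℕ) {m i j : ℕ} (h : Fin (m + 1) → ℕ) (u : Fin (i + 1) → ℕ) (v : Fin (j + 1) → ℕ) : Prop :=
  ∀ k : ℤ, hod w h k = ∑ l ∈ Icc (0 : ℤ) a, hod a u l * hod b v (k - l)

theorem Cv.dm_mul {w a b m i j : ℕ} {h : Fin (m + 1) → ℕ} {u : Fin (i + 1) → ℕ} {v : Fin (j + 1) → ℕ}
    (H : Cv w a b h u v) (hw : a + b = w) : dm a (hod a u) * dm b (hod b v) = dm w (hod w h) := by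
  unfold dm
  rw [sum_congr rfl fun k _ => H k, sum_comm, sum_mul]
  refine sum_congr rfl fun l hl => ?_
  rw [← mul_sum]
  congr 1
  rw [mem_Icc] at hl
  refine sum_of_injOn (fun q => q + l) (fun x _ y _ hxy => add_right_cancel hxy) ?_ ?_ ?_
  · intro q hq
    rw [mem_coe, mem_Icc] at hq
    rw [mem_coe, mem_Icc]
    show 0 ≤ q + l ∧ q + l ≤ w
    omega
  · intro k _ hk
    refine hod_out ?_
    by_contra h1
    push Not at h1
    apply hk
    refine ⟨k - l, ?_, by ring⟩
    rw [mem_coe, mem_Icc]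
    omega
  · intro q _
    rw [add_sub_cancel_right]

theorem Cv.ext {w a b m i j : ℕ} {h h' : Fin (m + 1) → ℕ} {u : Fin (i + 1) → ℕ} {v : Fin (j + 1) → ℕ}
    (hm : 2 * m ≤ w) (H : Cv w a b h u v) (H' : Cv w a b h' u v) : h = h' := by
  funext x
  have h1 := H (x : ℕ)
  have h2 := H' (x : ℕ)
  rw [← h1] at h2
  have h3 := x.2
  rw [hod_left (j := x) rfl (by omega), hod_left (j := x) rfl (by omega)] at h2
  exact h2.symm

/-- the sum of the numbers `hod w h`, in terms of `h` -/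
theorem dm_eq {w m : ℕ} (hw : w = 2 * m ∨ w = 2 * m + 1) :
    ∃ c : ℕ, 1 ≤ c ∧ ∀ h : Fin (m + 1) → ℕ,
      dm w (hod w h) = 2 * ∑ k : Fin m, h k.castSucc + c * h (Fin.last m) := by
  rcases hw with rfl | rfl
  · refine ⟨1, le_rfl, fun h => ?_⟩
    rw [dm_even, dimn, add_comm, one_mul, Fin.rev_zero]
    congr 2
    rw [← Equiv.sum_comp Fin.revPerm]
    refine sum_congr rfl fun k _ => ?_
    rw [Fin.revPerm_apply, Fin.rev_succ, Fin.rev_rev]
  · refine ⟨2, by norm_num, fun h => ?_⟩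
    rw [dm_odd, dimo, add_comm, Fin.rev_zero]
    congr 2
    rw [← Equiv.sum_comp Fin.revPerm]
    refine sum_congr rfl fun k _ => ?_
    rw [Fin.revPerm_apply, Fin.rev_succ, Fin.rev_rev]

theorem le_dm {w m : ℕ} (hw : w = 2 * m ∨ w = 2 * m + 1) (h : Fin (m + 1) → ℕ) (k : Fin (m + 1)) :
    h k ≤ dm w (hod w h) := by
  obtain ⟨c, hc, h1⟩ := dm_eq hw
  rw [h1]
  refine Fin.lastCases ?_ (fun i => ?_) k
  · have h2 : 1 * h (Fin.last m) ≤ c * h (Fin.last m) := Nat.mul_le_mul_right _ hc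
    omega
  · have h2 : h i.castSucc ≤ ∑ j : Fin m, h j.castSucc :=
      single_le_sum (f := fun j : Fin m => h j.castSucc) (fun _ _ => Nat.zero_le _) (mem_univ i)
    omega

theorem eq_of_init {w m : ℕ} (hw : w = 2 * m ∨ w = 2 * m + 1) {h h' : Fin (m + 1) → ℕ}
    (hd : dm w (hod w h) = dm w (hod w h')) (ht : ∀ k : Fin m, h k.castSucc = h' k.castSucc) : h = h' := by
  obtain ⟨c, hc, h1⟩ := dm_eq hw
  rw [h1, h1, sum_congr rfl fun k _ => ht k] at hd
  have h2 : c * h (Fin.last m) = c * h' (Fin.last m) := by omega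
  funext k
  refine Fin.lastCases ?_ (fun i => ht i) k
  exact Nat.eq_of_mul_eq_mul_left (by omega) h2

theorem dm_le {w m N : ℕ} (hw : w = 2 * m ∨ w = 2 * m + 1) (h : Fin (m + 1) → Fin (N + 1)) :
    dm w (hod w (fun k => (h k : ℕ))) ≤ (2 * m + 3) * (N + 1) := by
  have key : ∀ g : Fin (m + 1) → Fin (N + 1), ∑ j : Fin m, ((g j.succ : Fin (N + 1)) : ℕ) ≤ m * N := by
    intro g
    have h1 : ∑ j : Fin m, ((g j.succ : Fin (N + 1)) : ℕ) ≤ ∑ _j : Fin m, N :=
      sum_le_sum fun j _ => Nat.le_of_lt_succ (g j.succ).2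
    rwa [sum_const, card_univ, Fintype.card_fin, smul_eq_mul] at h1
  have h1 := key (fun j => h (Fin.rev j))
  have h2 : ((h (Fin.rev 0) : Fin (N + 1)) : ℕ) ≤ N := Nat.le_of_lt_succ (h (Fin.rev 0)).2
  rcases hw with rfl | rfl
  · rw [dm_even, dimn]
    nlinarith
  · rw [dm_odd, dimo]
    nlinarith

theorem card_cv {w a b m i j N K : ℕ} (hw : w = 2 * m + 1) (hab : a + b = w) (ha : a = 2 * i ∨ a = 2 * i + 1)
    (hb : b = 2 * j ∨ b = 2 * j + 1) (hi : 1 ≤ i) (hj : 1 ≤ j) (hK : (2 * m + 3) * (N + 1) ≤ K)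
    (S : Finset (Fin (m + 1) → Fin (N + 1)))
    (hS : ∀ h ∈ S, ((h 0 : Fin (N + 1)) : ℕ) ≠ 0 ∧
      ∃ (u : Fin (i + 1) → ℕ) (v : Fin (j + 1) → ℕ), Cv w a b (fun x => (h x : ℕ)) u v) :
    S.card ≤ 2 ^ (m + 1) * (Nat.sqrt K * K ^ m) := by
  classical
  have hij : i + j = m := by omega
  choose! h0 u v huv using hS
  obtain ⟨T, hT⟩ : ∃ T : Finset (ℕ × ℕ), T = (Finset.Icc 1 K ×ˢ Finset.Icc 1 K).filter fun p : ℕ × ℕ => p.1 * p.2 ≤ K :=
    ⟨_, rfl⟩
  have h1 : S.card ≤ 2 ^ m * K ^ (m - 1) * T.card := by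
    refine card_le_mul_card_image_of_maps_to (f := fun h => (dm a (hod a (u h)), dm b (hod b (v h)))) ?_ _ ?_
    · intro h hh
      have h2 := (huv h hh).dm_mul hab
      have h3 := dm_le (Or.inr hw) h
      have h4 : ((h 0 : Fin (N + 1)) : ℕ) ≤ dm w (hod w (fun x => ((h x : Fin (N + 1)) : ℕ))) :=
        le_dm (Or.inr hw) (fun x => ((h x : Fin (N + 1)) : ℕ)) 0
      have h5 := h0 h hh
      obtain ⟨A, hA⟩ : ∃ A, A = dm a (hod a (u h)) := ⟨_, rfl⟩
      obtain ⟨B, hB⟩ : ∃ B, B = dm b (hod b (v h)) := ⟨_, rfl⟩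
      rw [← hA, ← hB] at h2 ⊢
      have h6 : A ≠ 0 := by
        intro h7
        rw [h7, zero_mul] at h2
        omega
      have h7 : B ≠ 0 := by
        intro h7
        rw [h7, mul_zero] at h2
        omega
      have h8 : A * B ≤ K := by omega
      have h9 : A ≤ A * B := Nat.le_mul_of_pos_right _ (Nat.pos_of_ne_zero h7)
      have h10 : B ≤ A * B := Nat.le_mul_of_pos_left _ (Nat.pos_of_ne_zero h6)
      rw [hT, mem_filter, mem_product, mem_Icc, mem_Icc]
      refine ⟨⟨⟨Nat.pos_of_ne_zero h6, h9.trans h8⟩, Nat.pos_of_ne_zero h7, h10.trans h8⟩, h8⟩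
    · rintro ⟨A, B⟩ hAB
      rw [hT, mem_filter, mem_product, mem_Icc, mem_Icc] at hAB
      obtain ⟨⟨⟨a1, -⟩, b1, -⟩, ab⟩ := hAB
      have a1 : 1 ≤ A := a1
      have b1 : 1 ≤ B := b1
      have ab : A * B ≤ K := ab
      refine le_trans ?_ (pow_bound a1 b1 ab hi hj hij)
      have h2 : (filter (fun x => (dm a (hod a (u x)), dm b (hod b (v x))) = (A, B)) S).card ≤
          ((Fintype.piFinset fun _ : Fin i => range (A + 1)) ×ˢ
            (Fintype.piFinset fun _ : Fin j => range (B + 1))).card := by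
        refine card_le_card_of_injOn
          (fun h => (fun x : Fin i => u h x.castSucc, fun x : Fin j => v h x.castSucc)) ?_ ?_
        · intro h hh
          rw [mem_coe, mem_filter, Prod.mk.injEq] at hh
          obtain ⟨-, hA, hB⟩ := hh
          rw [mem_coe, mem_product, Fintype.mem_piFinset, Fintype.mem_piFinset]
          refine ⟨fun x => ?_, fun x => ?_⟩
          · rw [mem_range, Nat.lt_succ_iff, ← hA]
            exact le_dm ha _ _
          · rw [mem_range, Nat.lt_succ_iff, ← hB]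
            exact le_dm hb _ _
        · intro h hh h' hh' he
          rw [mem_coe, mem_filter, Prod.mk.injEq] at hh hh'
          obtain ⟨s1, hA, hB⟩ := hh
          obtain ⟨s2, hA', hB'⟩ := hh'
          simp only [Prod.mk.injEq] at he
          have e1 : u h = u h' := eq_of_init ha (hA.trans hA'.symm) fun x => congrFun he.1 x
          have e2 : v h = v h' := eq_of_init hb (hB.trans hB'.symm) fun x => congrFun he.2 x
          have c1 := huv h s1
          have c2 := huv h' s2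
          rw [← e1, ← e2] at c2
          have e3 := Cv.ext (by omega) c1 c2
          funext x
          exact Fin.ext (congrFun e3 x)
      rw [card_product, Fintype.card_piFinset_const, Fintype.card_piFinset_const, card_range, card_range] at h2
      exact h2
  have h2 : T.card ≤ 2 * (Nat.sqrt K * K) := by
    rw [hT]
    exact card_pairs K
  refine h1.trans ((Nat.mul_le_mul_left _ h2).trans (le_of_eq ?_))
  obtain ⟨e, rfl⟩ := Nat.exists_eq_add_of_le' (show 1 ≤ m by omega)
  rw [Nat.add_sub_cancel]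
  ring

/-- Decomposable vectors in odd weight with `h 1 < h 0`. -/
theorem dec_odd {m : ℕ} {h : Fin (m + 1 + 1) → ℕ} (h01 : h 1 < h 0)
    (hI : ¬ NI.Indec ((2 * (m + 1) + 1 : ℕ) : ℤ) (hod (2 * (m + 1) + 1) h)) :
    ∃ a b : ℕ, 2 ≤ a ∧ 2 ≤ b ∧ a + b = 2 * (m + 1) + 1 ∧
      ∃ (u : Fin (a / 2 + 1) → ℕ) (v : Fin (b / 2 + 1) → ℕ), Cv (2 * (m + 1) + 1) a b h u v := by
  obtain ⟨w, hw⟩ : ∃ w : ℕ, w = 2 * (m + 1) + 1 := ⟨_, rfl⟩
  rw [← hw] at hI ⊢
  by_contra hcon
  push Not at hcon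
  apply hI
  intro a f g hf hg hr
  by_contra h2
  push Not at h2
  obtain ⟨h2, h3⟩ := h2
  obtain ⟨α, fα, wα, rα⟩ := exists_low hf (by omega)
  obtain ⟨β, gβ, wβ, rβ⟩ := exists_low hg (by omega)
  have hvz : ∀ p : ℤ, hod w h p ≠ 0 → 0 ≤ p ∧ p ≤ w := by
    intro p hp
    by_contra h4
    apply hp
    exact hod_out (by omega)
  have hconv : ∀ p : ℤ, hod w h p ≠ 0 → ∃ x y, f x ≠ 0 ∧ g y ≠ 0 ∧ x + y = p := by
    intro p hp
    rw [hr p, Finsupp.sum] at hp
    obtain ⟨x, hx, hxy⟩ := Finset.exists_ne_zero_of_sum_ne_zero hp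
    exact ⟨x, p - x, left_ne_zero_of_mul hxy, right_ne_zero_of_mul hxy, by ring⟩
  -- the lowest degree
  have e1 : hod w h (α + β) = f α * g β := by
    rw [hr, Finsupp.sum, Finset.sum_eq_single α]
    · rw [add_sub_cancel_left]
    · intro x hx hxα
      have h4 := rα x (Finsupp.mem_support_iff.1 hx)
      have h5 : g (α + β - x) = 0 := by
        by_contra h6
        have := rβ _ h6
        omega
      rw [h5, mul_zero]
    · intro hx
      exact absurd (Finsupp.mem_support_iff.2 fα) hx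
  have e2 : 0 ≤ α + β := (hvz _ (by rw [e1]; exact mul_ne_zero fα gβ)).1
  have hod0 : hod w h 0 = h 0 := hod_left (j := 0) (by simp) (by omega)
  have hod1 : hod w h 1 = h 1 := hod_left (j := 1) (by simp) (by omega)
  have e4 : α + β ≤ 0 := by
    obtain ⟨x, y, hx, hy, hxy⟩ := hconv 0 (by rw [hod0]; omega)
    have := rα x hx
    have := rβ y hy
    omega
  have e5 : β = -α := by omega
  subst e5
  rw [add_neg_cancel, hod0] at e1
  -- the widths
  obtain ⟨A, hA⟩ : ∃ A : ℕ, (A : ℤ) = a - 2 * α := ⟨(a - 2 * α).toNat, Int.toNat_of_nonneg (by omega)⟩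
  obtain ⟨B, hB⟩ : ∃ B : ℕ, (B : ℤ) = w - a + 2 * α := ⟨(w - a + 2 * α).toNat, Int.toNat_of_nonneg (by omega)⟩
  -- the widths are at least two
  have hf0 : 0 < f α := Nat.pos_of_ne_zero fα
  have hg0 : 0 < g (-α) := Nat.pos_of_ne_zero gβ
  have e6 : hod w h 1 = f α * g (1 - α) + f (α + 1) * g (-α) := by
    rw [hr, Finsupp.sum]
    have h4 : ∀ x ∈ f.support, x ≠ α → x ≠ α + 1 → f x * g (1 - x) = 0 := by
      intro x hx n1 n2
      have h5 := rα x (Finsupp.mem_support_iff.1 hx)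
      have h6 : g (1 - x) = 0 := by
        by_contra h7
        have := rβ _ h7
        omega
      rw [h6, mul_zero]
    by_cases h7 : α + 1 ∈ f.support
    · rw [← Finset.add_sum_erase _ _ (Finsupp.mem_support_iff.2 fα), ← Finset.add_sum_erase _ _
        (Finset.mem_erase.2 ⟨by omega, h7⟩), Finset.sum_eq_zero, add_zero]
      · congr 3
        ring
      · intro x hx
        rw [Finset.mem_erase, Finset.mem_erase] at hx
        exact h4 x hx.2.2 hx.2.1 hx.1
    · rw [← Finset.add_sum_erase _ _ (Finsupp.mem_support_iff.2 fα), Finset.sum_eq_zero]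
      · rw [Finsupp.notMem_support_iff.1 h7, zero_mul]
      · intro x hx
        rw [Finset.mem_erase] at hx
        exact h4 x hx.2 hx.1 fun h8 => h7 (h8 ▸ hx.2)
  rw [hod1] at e6
  have hA2 : 2 ≤ A := by
    by_contra h4
    have h5 : a - α = α + 1 := by omega
    have h6 : f (α + 1) = f α := by
      rw [← h5, hf]
    rw [h6] at e6
    nlinarith
  have hB2 : 2 ≤ B := by
    by_contra h4
    have h5 : w - a - -α = 1 - α := by omega
    have h6 : g (1 - α) = g (-α) := by
      rw [← h5, hg]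
    rw [h6] at e6
    nlinarith
  have hu : ∀ l : ℤ, hod A (fun x : Fin (A / 2 + 1) => f (α + (x : ℕ))) l = f (α + l) := by
    intro l
    by_cases h4 : 0 ≤ l ∧ l ≤ A
    · rcases le_total l (A - l) with h5 | h5
      · have h6 : l.toNat < A / 2 + 1 := by omega
        rw [hod_left (j := ⟨l.toNat, h6⟩) (by simp only; omega) h5]
        simp only
        congr 2
        omega
      · have h6 : ((A : ℤ) - l).toNat < A / 2 + 1 := by omega
        rw [hod_right (j := ⟨((A : ℤ) - l).toNat, h6⟩) (by simp only; omega) h5]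
        simp only
        rw [← hf (α + l)]
        congr 1
        omega
    · rw [hod_out (by omega)]
      by_contra h5
      have := rα _ (Ne.symm h5)
      omega
  have hv' : ∀ l : ℤ, hod B (fun x : Fin (B / 2 + 1) => g (-α + (x : ℕ))) l = g (-α + l) := by
    intro l
    by_cases h4 : 0 ≤ l ∧ l ≤ B
    · rcases le_total l (B - l) with h5 | h5
      · have h6 : l.toNat < B / 2 + 1 := by omega
        rw [hod_left (j := ⟨l.toNat, h6⟩) (by simp only; omega) h5]
        simp only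
        congr 2
        omega
      · have h6 : ((B : ℤ) - l).toNat < B / 2 + 1 := by omega
        rw [hod_right (j := ⟨((B : ℤ) - l).toNat, h6⟩) (by simp only; omega) h5]
        simp only
        rw [← hg (-α + l)]
        congr 1
        omega
    · rw [hod_out (by omega)]
      by_contra h5
      have := rβ _ (Ne.symm h5)
      omega
  refine hcon A B hA2 hB2 (by omega) (fun x => f (α + (x : ℕ))) (fun x => g (-α + (x : ℕ))) ?_
  intro k
  rw [hr, Finsupp.sum]
  refine sum_of_injOn (fun x => x - α) (fun x _ y _ hxy => by simpa using hxy) ?_ ?_ ?_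
  · intro x hx
    have := rα x (Finsupp.mem_support_iff.1 hx)
    rw [mem_coe, mem_Icc]
    show 0 ≤ x - α ∧ x - α ≤ A
    omega
  · intro l _ hl
    rw [hu]
    have h5 : f (α + l) = 0 := by
      by_contra h6
      apply hl
      refine ⟨α + l, ?_, by ring⟩
      rw [mem_coe, Finsupp.mem_support_iff]
      exact h6
    rw [h5, zero_mul]
  · intro x _
    rw [hu, hv']
    congr 2
    · ring
    · ring

end TF
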